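import Mathlib

/-!
# Triangulated 3-manifolds, generalised shape parameters, volume, Gromov norm

* `Triangulation`: finitely many oriented tetrahedra, their faces glued in pairs by affine
  orientation-reversing maps; `Triangulation.Space` is the quotient space.
* `Triangulation.Edge`, `Triangulation.Quad`, `Triangulation.inc`, `Triangulation.W`,
  `Triangulation.vol`: the edges, the normal quadrilaterals, the numbers `i(e, q)`, the set
  `W(T)` and the volume.
* `Chain`, `bdry`, `norm1`, `Triangulation.IsFundamental`, `Triangulation.gromovNorm`: real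
  singular chains, the cycles representing the fundamental class, the Gromov norm.
-/

set_option autoImplicit false

namespace Pool.Agent.H297R3.Luo

/-- An oriented triangulation (simplices need not be embedded): a finite set `Tet` of oriented
tetrahedra, each with vertices `0, 1, 2, 3` in the order of its orientation. The face of `t`
opposite to the vertex `f` is glued to the face of `adj t f` opposite to the vertex `perm t f f`,
by the affine map which sends the vertex `v ≠ f` to the vertex `perm t f v`. The faces are glued
in pairs (`adj_adj`, `perm_perm`, `ne_self`), and the gluing maps reverse the orientation of the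
faces; as `perm t f` also sends the vertex `f` opposite to the first face to the vertex opposite
to the second, this says that the permutation `perm t f` is odd. -/
structure Triangulation where
  /-- the set of tetrahedra -/
  Tet : Type
  [fintypeTet : Fintype Tet]
  /-- the tetrahedron on the other side of the face opposite to a vertex -/
  adj : Tet → Fin 4 → Tet
  /-- the gluing map, as a permutation of the vertices -/
  perm : Tet → Fin 4 → Equiv.Perm (Fin 4)
  adj_adj : ∀ t f, adj (adj t f) (perm t f f) = t
  perm_perm : ∀ t f, perm (adj t f) (perm t f f) = (perm t f)⁻¹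
  odd : ∀ t f, Equiv.Perm.sign (perm t f) = -1
  ne_self : ∀ t f, ¬ (adj t f = t ∧ perm t f f = f)

attribute [instance] Triangulation.fintypeTet

/-- The singular `k`-chains of a space `X`, with real coefficients. -/
abbrev Chain (k : ℕ) (X : Type) [TopologicalSpace X] : Type :=
  C(stdSimplex ℝ (Fin (k + 1)), X) →₀ ℝ

/-- The inclusion of the face opposite to the vertex `i`. -/
noncomputable def face {k : ℕ} (i : Fin (k + 2)) :
    C(stdSimplex ℝ (Fin (k + 1)), stdSimplex ℝ (Fin (k + 2))) :=
  ⟨stdSimplex.map i.succAbove, stdSimplex.continuous_map _⟩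

/-- The boundary of singular chains. -/
noncomputable def bdry {X : Type} [TopologicalSpace X] (k : ℕ) :
    Chain (k + 1) X →ₗ[ℝ] Chain k X :=
  Finsupp.linearCombination ℝ fun σ =>
    ∑ i : Fin (k + 2), ((-1 : ℝ) ^ (i : ℕ)) • Finsupp.single (σ.comp (face i)) 1

/-- The `ℓ¹`-norm of a singular chain: the sum of the absolute values of its coefficients. -/
noncomputable def norm1 {X : Type} [TopologicalSpace X] {k : ℕ} (c : Chain k X) : ℝ :=
  ∑ σ ∈ c.support, |c σ|

/-- The Lobachevsky function. -/
noncomputable def lob (t : ℝ) : ℝ := - ∫ s in (0 : ℝ)..t, Real.log |2 * Real.sin s|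

/-- The volume `v₃` of the regular ideal hyperbolic tetrahedron (its dihedral angles are
`π / 3`). -/
noncomputable def v3 : ℝ := 3 * lob (Real.pi / 3)

namespace Triangulation

variable (T : Triangulation)

/-! ### The quotient space -/

/-- The disjoint union of the tetrahedra. -/
abbrev Pre : Type := Σ _ : T.Tet, stdSimplex ℝ (Fin 4)

/-- Two points of faces which are glued to each other. -/
def Glued (p q : T.Pre) : Prop :=
  ∃ f : Fin 4, p.2 f = 0 ∧ q.1 = T.adj p.1 f ∧ ∀ v, q.2 (T.perm p.1 f v) = p.2 v

/-- The quotient space, with the quotient topology. -/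
def Space : Type := Quot T.Glued

instance : TopologicalSpace T.Space := inferInstanceAs (TopologicalSpace (Quot T.Glued))

/-- The characteristic map of a tetrahedron. -/
def char (t : T.Tet) : C(stdSimplex ℝ (Fin 4), T.Space) :=
  ⟨fun x => Quot.mk T.Glued ⟨t, x⟩, continuous_quot_mk.comp continuous_sigmaMk⟩

/-- The union of the faces of all tetrahedra in the quotient space (the 2-skeleton). -/
def skel : Set T.Space := {p | ∃ (t : T.Tet) (x : stdSimplex ℝ (Fin 4)), (∃ f, x f = 0) ∧
  p = T.char t x}

/-! ### The Gromov norm -/

/-- A singular cycle `c` represents the fundamental class: its class in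
`H₃(M, M²; ℝ)`, where `M²` is the 2-skeleton, is the sum of the oriented tetrahedra.
(As `H₃(M²; ℝ) = 0`, the map `H₃(M; ℝ) → H₃(M, M²; ℝ)` is injective, so that this
characterises the fundamental class of `M`.) -/
def IsFundamental (c : Chain 3 T.Space) : Prop :=
  bdry 2 c = 0 ∧ ∃ (b : Chain 4 T.Space) (r : Chain 3 T.Space),
    (∀ σ ∈ r.support, Set.range σ ⊆ T.skel) ∧
      c = ∑ t : T.Tet, Finsupp.single (T.char t) 1 + bdry 3 b + r

/-- The Gromov norm (simplicial volume): the infimum of the `ℓ¹`-norms of the real singular cycles
which represent the fundamental class. -/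
noncomputable def gromovNorm : ℝ := sInf {x | ∃ c, T.IsFundamental c ∧ x = norm1 c}

/-! ### Edges and normal quadrilaterals -/

/-- The edges of the tetrahedra before gluing: an edge of a tetrahedron is an unordered pair of
different vertices. -/
abbrev PreEdge : Type := T.Tet × {e : Sym2 (Fin 4) // ¬ e.IsDiag}

/-- Two edges of faces which are glued to each other. -/
def EdgeGlued (p q : T.PreEdge) : Prop :=
  ∃ f : Fin 4, f ∉ p.2.1 ∧ q.1 = T.adj p.1 f ∧ q.2.1 = p.2.1.map (T.perm p.1 f)

/-- The set `E` of edges of the triangulation. -/
def Edge : Type := Quot T.EdgeGlued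

/-- The set of normal quadrilaterals. The quadrilateral `(t, 0)` separates the edges `01` and `23`
of `t`, the quadrilateral `(t, 1)` separates `02` and `13`, the quadrilateral `(t, 2)` separates
`03` and `12`. In the cyclic order given by the orientation, `(t, k + 1)` follows `(t, k)`.
(With the opposite cyclic order in all tetrahedra, `W(T)` is replaced by its image under
`z ↦ 1 / z`; as `W(T)` is stable under complex conjugation, this changes neither
the set of the volumes of its points, nor whether it is empty.) -/
abbrev Quad : Type := T.Tet × Fin 3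

/-- The edges of a tetrahedron which are disjoint from the quadrilateral `k`. -/
def oppEdges : Fin 3 → Set (Sym2 (Fin 4)) :=
  ![{s(0, 1), s(2, 3)}, {s(0, 2), s(1, 3)}, {s(0, 3), s(1, 2)}]

open Classical in
/-- The number `i(e, q)` of the edges of the tetrahedron of `q`, before gluing, which are disjoint
from `q` and map to `e`. -/
noncomputable def inc (e : T.Edge) (q : T.Quad) : ℕ :=
  (Finset.univ.filter fun d : {e : Sym2 (Fin 4) // ¬ e.IsDiag} =>
    d.1 ∈ oppEdges q.2 ∧ Quot.mk T.EdgeGlued (q.1, d) = e).card

/-- The set `W(T)`. -/
def W : Set (T.Quad → ℂ) :=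
  {z | (∀ q, z q ≠ 0 ∧ z q ≠ 1) ∧ (∀ (t : T.Tet) (k : Fin 3), z (t, k + 1) = 1 / (1 - z (t, k))) ∧
    ∀ e : T.Edge, ∃ r : ℝ, 0 < r ∧ ∏ q : T.Quad, z q ^ T.inc e q = (r : ℂ)}

/-- The volume. -/
noncomputable def vol (z : T.Quad → ℂ) : ℝ := ∑ q : T.Quad, lob (Complex.arg (z q))

end Triangulation

end Pool.Agent.H297R3.Luo
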