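import Mathlib
import Pool.Agent.H297R3.Luo.Defs

set_option autoImplicit false

namespace Pool.Agent.H297R3.Luo

open Complex

/-- The unit sphere of `ℂ²`. -/
abbrev S3 : Type := {p : ℂ × ℂ // ‖p.1‖ ^ 2 + ‖p.2‖ ^ 2 = 1}

/-- `e(t) = exp (2 π i t)`. -/
noncomputable def ee (t : ℝ) : ℂ := Complex.exp (2 * Real.pi * t * Complex.I)

theorem norm_ee (t : ℝ) : ‖ee t‖ = 1 := by
  unfold ee
  rw [Complex.norm_exp]
  simp

theorem ee_add (s t : ℝ) : ee (s + t) = ee s * ee t := by
  unfold ee
  rw [← Complex.exp_add]
  congr 1
  push_cast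
  ring

theorem ee_int (n : ℤ) : ee n = 1 := by
  unfold ee
  rw [Complex.exp_eq_one_iff]
  exact ⟨n, by push_cast; ring⟩

theorem ee_eq_one {t : ℝ} (h : ee t = 1) : ∃ n : ℤ, t = n := by
  unfold ee at h
  rw [Complex.exp_eq_one_iff] at h
  obtain ⟨n, hn⟩ := h
  refine ⟨n, ?_⟩
  have h2 : (2 * Real.pi * Complex.I) ≠ 0 := by
    simp [Real.pi_ne_zero]
  have h3 : (t : ℂ) * (2 * Real.pi * Complex.I) = (n : ℂ) * (2 * Real.pi * Complex.I) := by
    rw [← hn]; ring
  have h4 := mul_right_cancel₀ h2 h3
  exact_mod_cast h4

theorem ee_eq {s t : ℝ} (h : ee s = ee t) : ∃ n : ℤ, s = t + n := by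
  have h1 : ee (s - t) = 1 := by
    have h2 : ee t * ee (s - t) = ee t := by
      rw [← ee_add]
      rw [show t + (s - t) = s by ring, h]
    have h3 : ee t ≠ 0 := by
      intro h4
      have := norm_ee t
      rw [h4] at this
      simp at this
    have h4 : ee t * ee (s - t) = ee t * 1 := by rw [h2, mul_one]
    exact mul_left_cancel₀ h3 h4
  obtain ⟨n, hn⟩ := ee_eq_one h1
  exact ⟨n, by linarith⟩

theorem continuous_ee : Continuous ee := by
  unfold ee
  fun_prop

/-- weighted point of the disc -/
noncomputable def pt (s m : ℝ) : ℂ := (Real.sqrt s : ℂ) * ee (m / s)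

theorem norm_pt {s : ℝ} (hs : 0 ≤ s) (m : ℝ) : ‖pt s m‖ ^ 2 = s := by
  unfold pt
  rw [norm_mul, norm_ee, mul_one, Complex.norm_real, Real.norm_eq_abs,
    abs_of_nonneg (Real.sqrt_nonneg _), Real.sq_sqrt hs]

theorem continuous_pt {X : Type*} [TopologicalSpace X] (s m : X → ℝ) (hs : Continuous s)
    (hm : Continuous m) : Continuous fun x => pt (s x) (m x) := by
  rw [continuous_iff_continuousAt]
  intro x
  by_cases h : s x = 0
  · have h1 : pt (s x) (m x) = 0 := by simp [pt, h]
    rw [ContinuousAt, h1, tendsto_zero_iff_norm_tendsto_zero]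
    have h2 : ∀ y, ‖pt (s y) (m y)‖ = Real.sqrt (s y) := by
      intro y
      unfold pt
      rw [norm_mul, norm_ee, mul_one, Complex.norm_real, Real.norm_eq_abs,
        abs_of_nonneg (Real.sqrt_nonneg _)]
    simp only [h2]
    have h3 : Continuous fun y => Real.sqrt (s y) := Real.continuous_sqrt.comp hs
    have h4 := h3.tendsto x
    rw [h, Real.sqrt_zero] at h4
    exact h4
  · unfold pt
    apply ContinuousAt.mul
    · exact (Complex.continuous_ofReal.comp (Real.continuous_sqrt.comp hs)).continuousAt
    · exact continuous_ee.continuousAt.comp (hm.continuousAt.div hs.continuousAt h)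

/-- total weight of the vertices on the side `b` -/
noncomputable def mass {k : ℕ} (v : Fin k → Bool × ℝ) (b : Bool) (x : Fin k → ℝ) : ℝ :=
  ∑ i, if (v i).1 = b then x i else 0

/-- first moment of the vertices on the side `b` -/
noncomputable def mom {k : ℕ} (v : Fin k → Bool × ℝ) (b : Bool) (x : Fin k → ℝ) : ℝ :=
  ∑ i, if (v i).1 = b then x i * (v i).2 else 0

theorem mass_nonneg {k : ℕ} (v : Fin k → Bool × ℝ) (b : Bool) (x : stdSimplex ℝ (Fin k)) :
    0 ≤ mass v b x := by
  unfold mass
  apply Finset.sum_nonneg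
  intro i _
  split_ifs
  · exact x.2.1 i
  · exact le_refl _

theorem mass_add {k : ℕ} (v : Fin k → Bool × ℝ) (x : stdSimplex ℝ (Fin k)) :
    mass v false x + mass v true x = 1 := by
  unfold mass
  rw [← Finset.sum_add_distrib, ← x.2.2]
  apply Finset.sum_congr rfl
  intro i _
  rcases h : (v i).1 with _ | _ <;> simp <;> rfl

theorem continuous_mass {k : ℕ} (v : Fin k → Bool × ℝ) (b : Bool) :
    Continuous fun x : stdSimplex ℝ (Fin k) => mass v b x := by
  unfold mass
  apply continuous_finsetSum
  intro i _
  split_ifs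
  · exact (continuous_apply i).comp continuous_subtype_val
  · exact continuous_const

theorem continuous_mom {k : ℕ} (v : Fin k → Bool × ℝ) (b : Bool) :
    Continuous fun x : stdSimplex ℝ (Fin k) => mom v b x := by
  unfold mom
  apply continuous_finsetSum
  intro i _
  split_ifs
  · exact ((continuous_apply i).comp continuous_subtype_val).mul continuous_const
  · exact continuous_const

/-- The simplex of `S³ = S¹ * S¹` with the vertices `v i` (side and angle), the angles being
interpolated. -/
noncomputable def J {k : ℕ} (v : Fin k → Bool × ℝ) : C(stdSimplex ℝ (Fin k), S3) where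
  toFun x := ⟨(pt (mass v false x) (mom v false x), pt (mass v true x) (mom v true x)), by
    rw [norm_pt (mass_nonneg v _ x), norm_pt (mass_nonneg v _ x)]
    exact mass_add v x⟩
  continuous_toFun := by
    apply Continuous.subtype_mk
    exact (continuous_pt _ _ (continuous_mass v false) (continuous_mom v false)).prodMk
      (continuous_pt _ _ (continuous_mass v true) (continuous_mom v true))

theorem sum_face {k : ℕ} (i : Fin (k + 2)) (x : stdSimplex ℝ (Fin (k + 1)))
    (g : Fin (k + 2) → ℝ) :
    ∑ j, (face i x) j * g j = ∑ l, x l * g (i.succAbove l) := by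
  classical
  have h : ∀ j, (face i x) j = ∑ l, if i.succAbove l = j then x l else 0 := by
    intro j
    show (stdSimplex.map i.succAbove x) j = _
    rw [stdSimplex.map_coe, FunOnFinite.linearMap_apply_apply, Finset.sum_filter]
  simp only [h, Finset.sum_mul]
  rw [Finset.sum_comm]
  apply Finset.sum_congr rfl
  intro l _
  simp

theorem J_face {k : ℕ} (v : Fin (k + 2) → Bool × ℝ) (i : Fin (k + 2)) :
    (J v).comp (face i) = J (v ∘ i.succAbove) := by
  have h1 : ∀ b (x : stdSimplex ℝ (Fin (k + 1))),
      mass v b (face i x) = mass (v ∘ i.succAbove) b x := by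
    intro b x
    unfold mass
    have := sum_face i x (fun j => if (v j).1 = b then 1 else 0)
    simpa [mul_ite] using this
  have h2 : ∀ b (x : stdSimplex ℝ (Fin (k + 1))),
      mom v b (face i x) = mom (v ∘ i.succAbove) b x := by
    intro b x
    unfold mom
    have := sum_face i x (fun j => if (v j).1 = b then (v j).2 else 0)
    simpa [mul_ite] using this
  apply ContinuousMap.ext
  intro x
  apply Subtype.ext
  show (pt (mass v false (face i x)) (mom v false (face i x)),
    pt (mass v true (face i x)) (mom v true (face i x))) = _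
  rw [h1, h1, h2, h2]
  rfl

/-- shifting all the angles by integers, the same on each side, does not change the simplex. -/
theorem J_shift {k : ℕ} (v w : Fin k → Bool × ℝ) (n : Bool → ℤ)
    (h : ∀ i, w i = ((v i).1, (v i).2 + n (v i).1)) : J w = J v := by
  have h0 : ∀ i, (w i).1 = (v i).1 := fun i => by rw [h i]
  have h1 : ∀ b (x : stdSimplex ℝ (Fin k)), mass w b x = mass v b x := by
    intro b x
    unfold mass
    simp [h0]
  have h2 : ∀ b (x : stdSimplex ℝ (Fin k)), mom w b x = mom v b x + n b * mass v b x := by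
    intro b x
    unfold mom mass
    rw [Finset.mul_sum, ← Finset.sum_add_distrib]
    apply Finset.sum_congr rfl
    intro i _
    rw [h i]
    simp only
    split_ifs with h3
    · rw [h3]; ring
    · simp
  have h3 : ∀ b (x : stdSimplex ℝ (Fin k)),
      pt (mass w b x) (mom w b x) = pt (mass v b x) (mom v b x) := by
    intro b x
    rw [h1, h2]
    unfold pt
    by_cases h4 : mass v b x = 0
    · simp [h4]
    · rw [add_div, mul_div_assoc, div_self h4, mul_one, ee_add, ee_int, mul_one]
  apply ContinuousMap.ext
  intro x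
  apply Subtype.ext
  show (_, _) = (_, _)
  rw [h3, h3]

end Pool.Agent.H297R3.Luo
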