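import Mathlib
import Pool.Agent.H297R3.Luo.Join

set_option autoImplicit false

namespace Pool.Agent.H297R3.Luo

open Equiv (swap)

/-- The join of two circles divided into `2 m + 2` and `2 n + 2` arcs. -/
def joinTri (m n : ℕ) : Triangulation where
  Tet := Fin (2 * m + 2) × Fin (2 * n + 2)
  adj t := ![(t.1 + 1, t.2), (t.1 - 1, t.2), (t.1, t.2 + 1), (t.1, t.2 - 1)]
  perm _ := ![swap 0 1, swap 0 1, swap 2 3, swap 2 3]
  adj_adj := by
    intro t f
    fin_cases f
    · simp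
    · simp
    · simp [Equiv.swap_apply_left]
    · simp [Equiv.swap_apply_right]
  perm_perm := by
    intro t f
    fin_cases f <;> simp [Equiv.swap_apply_left, Equiv.swap_apply_right]
  odd := by
    intro t f
    fin_cases f <;> simp
  ne_self := by
    intro t f
    rintro ⟨_, h⟩
    revert h
    fin_cases f <;> simp

/-- the point of an arc -/
noncomputable def arc (M : ℕ) (i a b : ℝ) : ℂ := pt (a + b) (a * (i / M) + b * ((i + 1) / M))

theorem norm_arc (M : ℕ) (i : ℝ) {a b : ℝ} (ha : 0 ≤ a) (hb : 0 ≤ b) :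
    ‖arc M i a b‖ ^ 2 = a + b := norm_pt (by positivity) _

theorem val_succ {k : ℕ} (i : Fin (k + 1)) : ∃ n : ℤ, ((i + 1 : Fin (k + 1)) : ℕ) =
    ((i : ℕ) : ℝ) + 1 + n * ((k + 1 : ℕ) : ℝ) := by
  rw [Fin.val_add_one]
  split_ifs with h
  · refine ⟨-1, ?_⟩
    rw [h]
    push_cast
    simp [Fin.val_last]
  · exact ⟨0, by push_cast; ring⟩

theorem arc_glue {k : ℕ} (i : Fin (k + 1)) (b : ℝ) :
    arc (k + 1) (i : ℕ) 0 b = arc (k + 1) ((i + 1 : Fin (k + 1)) : ℕ) b 0 := by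
  unfold arc pt
  simp only [zero_add, zero_mul, add_zero]
  by_cases hb : b = 0
  · simp [hb]
  · obtain ⟨n, hn⟩ := val_succ i
    have hk : ((k + 1 : ℕ) : ℝ) ≠ 0 := by positivity
    have e1 : b * ((((i : ℕ) : ℝ) + 1) / ((k + 1 : ℕ) : ℝ)) / b =
        (((i : ℕ) : ℝ) + 1) / ((k + 1 : ℕ) : ℝ) := by field_simp
    have e2 : b * (((i + 1 : Fin (k + 1)) : ℕ) / ((k + 1 : ℕ) : ℝ)) / b =
        (((i : ℕ) : ℝ) + 1) / ((k + 1 : ℕ) : ℝ) + n := by
      rw [hn]
      field_simp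
    rw [e1, e2, ee_add, ee_int, mul_one]

theorem arc_inj {k : ℕ} (i i' : Fin (k + 1)) {a b a' b' : ℝ} (ha : 0 ≤ a) (hb : 0 ≤ b)
    (ha' : 0 ≤ a') (hb' : 0 ≤ b') (h : arc (k + 1) (i : ℕ) a b = arc (k + 1) (i' : ℕ) a' b') :
    a + b = a' + b' ∧ (a + b = 0 ∨ (i = i' ∧ a = a' ∧ b = b') ∨ (i' = i + 1 ∧ a = 0 ∧ b' = 0) ∨
      (i = i' + 1 ∧ a' = 0 ∧ b = 0)) := by
  have h1 : a + b = a' + b' := by
    rw [← norm_arc (k + 1) (i : ℕ) ha hb, ← norm_arc (k + 1) (i' : ℕ) ha' hb', h]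
  refine ⟨h1, ?_⟩
  by_cases h0 : a + b = 0
  · exact Or.inl h0
  right
  have hs : 0 < a + b := lt_of_le_of_ne (by positivity) (Ne.symm h0)
  unfold arc pt at h
  rw [← h1] at h
  have hq : ((Real.sqrt (a + b) : ℝ) : ℂ) ≠ 0 := by
    rw [Complex.ofReal_ne_zero]
    exact (Real.sqrt_pos.mpr hs).ne'
  have h2 := mul_left_cancel₀ hq h
  obtain ⟨n, hn⟩ := ee_eq h2
  have hk : (0 : ℝ) < ((k + 1 : ℕ) : ℝ) := by positivity
  -- multiply out
  have h3 : (i : ℕ) * (a + b) + b = (i' : ℕ) * (a + b) + b' + n * (k + 1 : ℕ) * (a + b) := by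
    have e1 : (a * ((i : ℕ) / ((k + 1 : ℕ) : ℝ)) + b * (((i : ℕ) + 1) / ((k + 1 : ℕ) : ℝ))) /
        (a + b) * (((k + 1 : ℕ) : ℝ) * (a + b)) = (i : ℕ) * (a + b) + b := by
      field_simp
      ring
    have e2 : (a' * ((i' : ℕ) / ((k + 1 : ℕ) : ℝ)) + b' * (((i' : ℕ) + 1) / ((k + 1 : ℕ) : ℝ))) /
        (a + b) * (((k + 1 : ℕ) : ℝ) * (a + b)) = (i' : ℕ) * (a' + b') + b' := by
      field_simp
      ring
    rw [← e1, hn, add_mul, e2, h1]
    ring
  have hi : (i : ℕ) ≤ k := Nat.lt_succ_iff.mp i.2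
  have hi' : (i' : ℕ) ≤ k := Nat.lt_succ_iff.mp i'.2
  have hbs : b ≤ a + b := by linarith
  have hbs' : b' ≤ a + b := by linarith
  -- the integer `i - i' - n (k+1)` is `(b' - b) / (a + b) ∈ [-1, 1]`
  set D : ℤ := (i : ℕ) - (i' : ℕ) - n * (k + 1 : ℕ) with hD
  have h4 : (D : ℝ) * (a + b) = b' - b := by
    rw [hD]
    push_cast
    push_cast at h3
    linarith
  have h5 : (D : ℝ) ≤ 1 := by
    by_contra hc
    push Not at hc
    nlinarith
  have h6 : (-1 : ℝ) ≤ D := by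
    by_contra hc
    push Not at hc
    nlinarith
  have h5' : D ≤ 1 := by exact_mod_cast h5
  have h6' : -1 ≤ D := by exact_mod_cast h6
  have h7 : D = 0 ∨ D = 1 ∨ D = -1 := by omega
  have hmod : ∀ (x y : Fin (k + 1)) (c : ℤ), ((x : ℕ) : ℤ) = (y : ℕ) + 1 + c * (k + 1 : ℕ) →
      x = y + 1 := by
    intro x y c hc
    apply Fin.ext
    rw [Fin.val_add_one]
    have hx : (x : ℕ) ≤ k := Nat.lt_succ_iff.mp x.2
    have hy : (y : ℕ) ≤ k := Nat.lt_succ_iff.mp y.2
    split_ifs with hl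
    · have hyk : (y : ℕ) = k := by rw [hl]; simp
      rw [hyk] at hc
      push_cast at hc
      have h8 : ((x : ℕ) : ℤ) = (1 + c) * ((k : ℤ) + 1) := by rw [hc]; ring
      have h9 : (1 + c) = 0 := by
        by_contra hne
        rcases lt_or_gt_of_ne hne with h10 | h10
        · have : (1 + c) * ((k : ℤ) + 1) < 0 := mul_neg_of_neg_of_pos h10 (by positivity)
          omega
        · have : (1 + c) * ((k : ℤ) + 1) ≥ 1 * ((k : ℤ) + 1) :=
            mul_le_mul_of_nonneg_right (by omega) (by positivity)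
          omega
      rw [h9, zero_mul] at h8
      exact_mod_cast h8
    · have hyk : (y : ℕ) < k := by
        rcases Nat.lt_or_ge (y : ℕ) k with h | h
        · exact h
        · exfalso; apply hl; apply Fin.ext; simp; omega
      push_cast at hc
      have h8 : c = 0 := by
        by_contra hne
        rcases lt_or_gt_of_ne hne with h10 | h10
        · have : c * ((k : ℤ) + 1) ≤ (-1) * ((k : ℤ) + 1) :=
            mul_le_mul_of_nonneg_right (by omega) (by positivity)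
          omega
        · have : c * ((k : ℤ) + 1) ≥ 1 * ((k : ℤ) + 1) :=
            mul_le_mul_of_nonneg_right (by omega) (by positivity)
          omega
      rw [h8] at hc
      omega
  rcases h7 with h7 | h7 | h7
  · left
    rw [h7] at h4
    have hbb : b = b' := by
      push_cast at h4
      linarith
    have h8 : n = 0 := by
      rw [hD] at h7
      push_cast at h7
      by_contra hne
      rcases lt_or_gt_of_ne hne with h10 | h10
      · have : n * ((k : ℤ) + 1) ≤ (-1) * ((k : ℤ) + 1) :=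
          mul_le_mul_of_nonneg_right (by omega) (by positivity)
        omega
      · have : n * ((k : ℤ) + 1) ≥ 1 * ((k : ℤ) + 1) :=
          mul_le_mul_of_nonneg_right (by omega) (by positivity)
        omega
    refine ⟨?_, by linarith, hbb⟩
    apply Fin.ext
    rw [hD, h8] at h7
    omega
  · -- D = 1 : b' - b = a + b, so b' = a + b + b ≤ a + b, b = 0, b' = a + b, a' = 0
    right; right
    rw [h7] at h4
    push_cast at h4
    have hb0 : b = 0 := by linarith
    refine ⟨hmod i i' n ?_, by linarith, hb0⟩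
    rw [hD] at h7
    push_cast at h7 ⊢
    linarith
  · right; left
    rw [h7] at h4
    push_cast at h4
    have hb0 : b' = 0 := by linarith
    refine ⟨hmod i' i (-n) ?_, by linarith, hb0⟩
    rw [hD] at h7
    push_cast at h7 ⊢
    linarith

theorem arc_surj {k : ℕ} (z : ℂ) : ∃ (i : Fin (k + 1)) (a b : ℝ), 0 ≤ a ∧ 0 ≤ b ∧
    a + b = ‖z‖ ^ 2 ∧ arc (k + 1) (i : ℕ) a b = z := by
  by_cases hz : z = 0
  · refine ⟨0, 0, 0, le_refl _, le_refl _, by simp [hz], ?_⟩
    simp [arc, pt, hz]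
  · have hk : (0 : ℝ) < ((k + 1 : ℕ) : ℝ) := by positivity
    have hn : 0 < ‖z‖ := norm_pos_iff.mpr hz
    set s : ℝ := ‖z‖ ^ 2 with hs
    have hs0 : 0 < s := by positivity
    -- angle
    obtain ⟨θ, hθ0, hθ1, hθ⟩ : ∃ θ : ℝ, 0 ≤ θ ∧ θ < 1 ∧ (‖z‖ : ℂ) * ee θ = z := by
      refine ⟨Int.fract (Complex.arg z / (2 * Real.pi)), Int.fract_nonneg _, Int.fract_lt_one _, ?_⟩
      have h1 : ee (Int.fract (Complex.arg z / (2 * Real.pi))) =
          ee (Complex.arg z / (2 * Real.pi)) := by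
        have h2 := Int.fract_add_floor (Complex.arg z / (2 * Real.pi))
        conv_rhs => rw [← h2]
        rw [ee_add, ee_int, mul_one]
      rw [h1]
      unfold ee
      have h3 : (2 * (Real.pi : ℂ) * ((Complex.arg z / (2 * Real.pi) : ℝ) : ℂ) * Complex.I) =
          Complex.arg z * Complex.I := by
        have : (Real.pi : ℂ) ≠ 0 := by
          exact_mod_cast Real.pi_ne_zero
        push_cast
        field_simp
      rw [h3]
      exact Complex.norm_mul_exp_arg_mul_I z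
    set u : ℝ := θ * ((k + 1 : ℕ) : ℝ) with hu
    have hu0 : 0 ≤ u := by positivity
    have hu1 : u < ((k + 1 : ℕ) : ℝ) := by
      rw [hu]
      nlinarith
    have hfl : ⌊u⌋₊ < k + 1 := by
      rw [Nat.floor_lt hu0]
      exact hu1
    refine ⟨⟨⌊u⌋₊, hfl⟩, s * (1 - (u - ⌊u⌋₊)), s * (u - ⌊u⌋₊), ?_, ?_, by ring, ?_⟩
    · have := Nat.lt_floor_add_one u
      apply mul_nonneg hs0.le
      linarith
    · have := Nat.floor_le hu0
      apply mul_nonneg hs0.le
      linarith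
    · unfold arc pt
      simp only
      have e1 : s * (1 - (u - ⌊u⌋₊)) + s * (u - ⌊u⌋₊) = s := by ring
      rw [e1]
      have e2 : (s * (1 - (u - ⌊u⌋₊)) * ((⌊u⌋₊ : ℝ) / ((k + 1 : ℕ) : ℝ)) +
          s * (u - ⌊u⌋₊) * (((⌊u⌋₊ : ℝ) + 1) / ((k + 1 : ℕ) : ℝ))) / s = θ := by
        rw [div_eq_iff hs0.ne']
        rw [hu]
        field_simp
        ring
      rw [e2, hs, Real.sqrt_sq hn.le]
      exact hθ

end Pool.Agent.H297R3.Luo
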