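import Mathlib
import Pool.Agent.H297R3.Luo.Tri

set_option autoImplicit false

namespace Pool.Agent.H297R3.Luo

open Equiv (swap)

variable {m n : ℕ}

/-- vertices of a tetrahedron in the join of the circles -/
noncomputable def vert (m n : ℕ) (t : (joinTri m n).Tet) : Fin 4 → Bool × ℝ :=
  ![(false, ((t.1 : ℕ) : ℝ) / ((2 * m + 1 + 1 : ℕ) : ℝ)),
    (false, (((t.1 : ℕ) : ℝ) + 1) / ((2 * m + 1 + 1 : ℕ) : ℝ)),
    (true, ((t.2 : ℕ) : ℝ) / ((2 * n + 1 + 1 : ℕ) : ℝ)),
    (true, (((t.2 : ℕ) : ℝ) + 1) / ((2 * n + 1 + 1 : ℕ) : ℝ))]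

theorem J_vert (t : (joinTri m n).Tet) (x : stdSimplex ℝ (Fin 4)) :
    ((J (vert m n t) x : S3) : ℂ × ℂ) = (arc (2 * m + 1 + 1) (t.1 : ℕ) (x 0) (x 1),
      arc (2 * n + 1 + 1) (t.2 : ℕ) (x 2) (x 3)) := by
  show (pt (mass (vert m n t) false x) (mom (vert m n t) false x),
    pt (mass (vert m n t) true x) (mom (vert m n t) true x)) = _
  unfold arc mass mom vert
  simp [Fin.sum_univ_four]

/-- the map from the disjoint union of the tetrahedra to the sphere -/
noncomputable def F0 (m n : ℕ) (p : (joinTri m n).Pre) : S3 := J (vert m n p.1) p.2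

theorem continuous_F0 : Continuous (F0 m n) := by
  apply continuous_sigma
  intro t
  exact (J (vert m n t)).continuous

theorem glue01 {K : ℕ} (i : Fin (K + 1)) {a b a' b' : ℝ} (h : a = 0) (h1 : a' = b) (h2 : b' = 0) :
    arc (K + 1) (i : ℕ) a b = arc (K + 1) ((i + 1 : Fin (K + 1)) : ℕ) a' b' := by
  subst h h1 h2
  exact arc_glue i a'

theorem F0_glued (p q : (joinTri m n).Pre) (h : (joinTri m n).Glued p q) : F0 m n p = F0 m n q := by
  obtain ⟨⟨i, j⟩, x⟩ := p
  obtain ⟨⟨i', j'⟩, y⟩ := q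
  obtain ⟨f, hf, hadj, hperm⟩ := h
  apply Subtype.ext
  unfold F0
  rw [J_vert, J_vert]
  simp only at hf hadj hperm ⊢
  fin_cases f
  · simp only [joinTri, Fin.zero_eta, Matrix.cons_val_zero, Prod.mk.injEq] at hf hadj hperm
    obtain ⟨rfl, rfl⟩ := hadj
    have h0 := hperm 0
    have h1 := hperm 1
    have h2 := hperm 2
    have h3 := hperm 3
    rw [Equiv.swap_apply_left] at h0
    rw [Equiv.swap_apply_right] at h1
    rw [Equiv.swap_apply_of_ne_of_ne (by decide) (by decide)] at h2 h3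
    rw [h2, h3]
    exact Prod.ext (glue01 i hf h1 (h0.trans hf)) rfl
  · simp only [joinTri, Fin.mk_one, Matrix.cons_val_one, Prod.mk.injEq] at hf hadj hperm
    obtain ⟨rfl, rfl⟩ := hadj
    have h0 := hperm 0
    have h1 := hperm 1
    have h2 := hperm 2
    have h3 := hperm 3
    simp only [Matrix.cons_val_zero] at h0 h1 h2 h3
    rw [Equiv.swap_apply_left] at h0
    rw [Equiv.swap_apply_right] at h1
    rw [Equiv.swap_apply_of_ne_of_ne (by decide) (by decide)] at h2 h3
    rw [h2, h3]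
    have h4 := glue01 (i - 1) (a := y 0) (b := y 1) (a' := x 0) (b' := x 1) (by rw [h1, hf])
      h0.symm hf
    rw [sub_add_cancel] at h4
    rw [h4]
  · simp only [joinTri, Prod.mk.injEq] at hf hadj hperm
    simp only [Fin.reduceFinMk, Matrix.cons_val] at hf hadj hperm
    rw [Prod.mk.injEq] at hadj
    obtain ⟨rfl, rfl⟩ := hadj
    have h0 := hperm 0
    have h1 := hperm 1
    have h2 := hperm 2
    have h3 := hperm 3
    rw [Equiv.swap_apply_left] at h2
    rw [Equiv.swap_apply_right] at h3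
    rw [Equiv.swap_apply_of_ne_of_ne (by decide) (by decide)] at h0 h1
    rw [h0, h1]
    exact Prod.ext rfl (glue01 j hf h3 (h2.trans hf))
  · simp only [joinTri, Prod.mk.injEq] at hf hadj hperm
    simp only [Fin.reduceFinMk, Matrix.cons_val] at hf hadj hperm
    rw [Prod.mk.injEq] at hadj
    obtain ⟨rfl, rfl⟩ := hadj
    have h0 := hperm 0
    have h1 := hperm 1
    have h2 := hperm 2
    have h3 := hperm 3
    rw [Equiv.swap_apply_left] at h2
    rw [Equiv.swap_apply_right] at h3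
    rw [Equiv.swap_apply_of_ne_of_ne (by decide) (by decide)] at h0 h1
    rw [h0, h1]
    have h4 := glue01 (j - 1) (a := y 2) (b := y 3) (a' := x 2) (b' := x 3) (by rw [h3, hf])
      h2.symm hf
    rw [sub_add_cancel] at h4
    rw [h4]

/-- the induced map -/
noncomputable def F1 (m n : ℕ) : (joinTri m n).Space → S3 := Quot.lift (F0 m n) F0_glued

theorem continuous_F1 : Continuous (F1 m n) := continuous_quot_lift _ continuous_F0

theorem F1_char (t : (joinTri m n).Tet) (x : stdSimplex ℝ (Fin 4)) :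
    F1 m n ((joinTri m n).char t x) = J (vert m n t) x := rfl

theorem F1_surj : Function.Surjective (F1 m n) := by
  rintro ⟨⟨z, w⟩, hzw⟩
  obtain ⟨i, a, b, ha, hb, hab, hz⟩ := arc_surj (k := 2 * m + 1) z
  obtain ⟨j, c, d, hc, hd, hcd, hw⟩ := arc_surj (k := 2 * n + 1) w
  have hsum : a + b + c + d = 1 := by
    simp only at hzw
    linarith
  let x : stdSimplex ℝ (Fin 4) := ⟨![a, b, c, d], by
    refine ⟨?_, ?_⟩
    · intro k
      fin_cases k <;> simp [ha, hb, hc, hd]
    · simp [Fin.sum_univ_four, hsum]⟩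
  refine ⟨(joinTri m n).char (i, j) x, ?_⟩
  apply Subtype.ext
  exact (J_vert (m := m) (n := n) (i, j) x).trans (Prod.ext hz hw)

/-- first factor: a step -/
theorem char_step1 (i : Fin (2 * m + 2)) (j : Fin (2 * n + 2)) (x y : stdSimplex ℝ (Fin 4))
    (h0 : x 0 = 0) (h1 : y 0 = x 1) (h2 : y 1 = 0) (h3 : y 2 = x 2) (h4 : y 3 = x 3) :
    (joinTri m n).char (i, j) x = (joinTri m n).char (i + 1, j) y := by
  apply Quot.sound
  refine ⟨0, h0, rfl, ?_⟩
  intro v
  show y (swap 0 1 v) = x v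
  fin_cases v
  · show y (swap 0 1 0) = x 0
    rw [Equiv.swap_apply_left, h2, h0]
  · show y (swap 0 1 1) = x 1
    rw [Equiv.swap_apply_right, h1]
  · show y (swap 0 1 2) = x 2
    rw [Equiv.swap_apply_of_ne_of_ne (by decide) (by decide), h3]
  · show y (swap 0 1 3) = x 3
    rw [Equiv.swap_apply_of_ne_of_ne (by decide) (by decide), h4]

/-- second factor: a step -/
theorem char_step2 (i : Fin (2 * m + 2)) (j : Fin (2 * n + 2)) (x y : stdSimplex ℝ (Fin 4))
    (h0 : x 2 = 0) (h1 : y 2 = x 3) (h2 : y 3 = 0) (h3 : y 0 = x 0) (h4 : y 1 = x 1) :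
    (joinTri m n).char (i, j) x = (joinTri m n).char (i, j + 1) y := by
  apply Quot.sound
  refine ⟨2, h0, rfl, ?_⟩
  intro v
  show y (swap 2 3 v) = x v
  fin_cases v
  · show y (swap 2 3 0) = x 0
    rw [Equiv.swap_apply_of_ne_of_ne (by decide) (by decide), h3]
  · show y (swap 2 3 1) = x 1
    rw [Equiv.swap_apply_of_ne_of_ne (by decide) (by decide), h4]
  · show y (swap 2 3 2) = x 2
    rw [Equiv.swap_apply_left, h2, h0]
  · show y (swap 2 3 3) = x 3
    rw [Equiv.swap_apply_right, h1]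

theorem char_all1 (i i' : Fin (2 * m + 2)) (j : Fin (2 * n + 2)) (x : stdSimplex ℝ (Fin 4))
    (h0 : x 0 = 0) (h1 : x 1 = 0) :
    (joinTri m n).char (i, j) x = (joinTri m n).char (i', j) x := by
  have h : ∀ i : Fin (2 * m + 1 + 1), (joinTri m n).char (0, j) x = (joinTri m n).char (i, j) x := by
    intro i
    induction i using Fin.induction with
    | zero => rfl
    | succ i ih =>
      rw [← Fin.coeSucc_eq_succ]
      exact ih.trans (char_step1 i.castSucc j x x h0 (by rw [h0, h1]) h1 rfl rfl)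
  exact (h i).symm.trans (h i')

theorem char_all2 (i : Fin (2 * m + 2)) (j j' : Fin (2 * n + 2)) (x : stdSimplex ℝ (Fin 4))
    (h0 : x 2 = 0) (h1 : x 3 = 0) :
    (joinTri m n).char (i, j) x = (joinTri m n).char (i, j') x := by
  have h : ∀ j : Fin (2 * n + 1 + 1), (joinTri m n).char (i, 0) x = (joinTri m n).char (i, j) x := by
    intro j
    induction j using Fin.induction with
    | zero => rfl
    | succ j ih =>
      rw [← Fin.coeSucc_eq_succ]
      exact ih.trans (char_step2 i j.castSucc x x h0 (by rw [h0, h1]) h1 rfl rfl)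
  exact (h j).symm.trans (h j')

theorem ext4 {x y : stdSimplex ℝ (Fin 4)} (h0 : x 0 = y 0) (h1 : x 1 = y 1) (h2 : x 2 = y 2)
    (h3 : x 3 = y 3) : x = y := by
  apply Subtype.ext
  funext v
  fin_cases v
  · exact h0
  · exact h1
  · exact h2
  · exact h3

theorem char_first (i i' : Fin (2 * m + 2)) (j : Fin (2 * n + 2)) (x y : stdSimplex ℝ (Fin 4))
    (h2 : x 2 = y 2) (h3 : x 3 = y 3)
    (h : arc (2 * m + 1 + 1) (i : ℕ) (x 0) (x 1) = arc (2 * m + 1 + 1) (i' : ℕ) (y 0) (y 1)) :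
    (joinTri m n).char (i, j) x = (joinTri m n).char (i', j) y := by
  obtain ⟨hs, hcase⟩ := arc_inj i i' (x.2.1 0) (x.2.1 1) (y.2.1 0) (y.2.1 1) h
  have e : ∀ (z : stdSimplex ℝ (Fin 4)) (v : Fin 4), (z : Fin 4 → ℝ) v = z v := fun _ _ => rfl
  rcases hcase with h4 | ⟨rfl, h5, h6⟩ | ⟨rfl, h5, h6⟩ | ⟨rfl, h5, h6⟩
  · have h7 : x 0 = 0 := by
      have a1 := x.2.1 0
      have a2 := x.2.1 1
      have : (x 0 : ℝ) + x 1 = 0 := h4
      have b1 : (0 : ℝ) ≤ x 0 := a1
      have b2 : (0 : ℝ) ≤ x 1 := a2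
      linarith
    have h8 : x 1 = 0 := by
      have : (x 0 : ℝ) + x 1 = 0 := h4
      linarith
    have hs' : (x 0 : ℝ) + x 1 = y 0 + y 1 := hs
    have h9 : y 0 = 0 := by
      have b1 : (0 : ℝ) ≤ y 0 := y.2.1 0
      have b2 : (0 : ℝ) ≤ y 1 := y.2.1 1
      linarith
    have h10 : y 1 = 0 := by linarith
    have h11 : x = y := ext4 (by rw [h7, h9]) (by rw [h8, h10]) h2 h3
    rw [← h11]
    exact char_all1 i i' j x h7 h8
  · rw [ext4 (x := x) (y := y) h5 h6 h2 h3]
  · have hs' : (x 0 : ℝ) + x 1 = y 0 + y 1 := hs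
    have h5' : (x 0 : ℝ) = 0 := h5
    have h6' : (y 1 : ℝ) = 0 := h6
    exact char_step1 i j x y h5' (by linarith) h6' h2.symm h3.symm
  · have hs' : (x 0 : ℝ) + x 1 = y 0 + y 1 := hs
    have h5' : (y 0 : ℝ) = 0 := h5
    have h6' : (x 1 : ℝ) = 0 := h6
    exact (char_step1 i' j y x h5' (by linarith) h6' h2 h3).symm

theorem char_second (i : Fin (2 * m + 2)) (j j' : Fin (2 * n + 2)) (x y : stdSimplex ℝ (Fin 4))
    (h0 : x 0 = y 0) (h1 : x 1 = y 1)
    (h : arc (2 * n + 1 + 1) (j : ℕ) (x 2) (x 3) = arc (2 * n + 1 + 1) (j' : ℕ) (y 2) (y 3)) :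
    (joinTri m n).char (i, j) x = (joinTri m n).char (i, j') y := by
  obtain ⟨hs, hcase⟩ := arc_inj j j' (x.2.1 2) (x.2.1 3) (y.2.1 2) (y.2.1 3) h
  rcases hcase with h4 | ⟨rfl, h5, h6⟩ | ⟨rfl, h5, h6⟩ | ⟨rfl, h5, h6⟩
  · have h7 : x 2 = 0 := by
      have : (x 2 : ℝ) + x 3 = 0 := h4
      have b1 : (0 : ℝ) ≤ x 2 := x.2.1 2
      have b2 : (0 : ℝ) ≤ x 3 := x.2.1 3
      linarith
    have h8 : x 3 = 0 := by
      have : (x 2 : ℝ) + x 3 = 0 := h4
      linarith
    have hs' : (x 2 : ℝ) + x 3 = y 2 + y 3 := hs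
    have h9 : y 2 = 0 := by
      have b1 : (0 : ℝ) ≤ y 2 := y.2.1 2
      have b2 : (0 : ℝ) ≤ y 3 := y.2.1 3
      linarith
    have h10 : y 3 = 0 := by linarith
    have h11 : x = y := ext4 h0 h1 (by rw [h7, h9]) (by rw [h8, h10])
    rw [← h11]
    exact char_all2 i j j' x h7 h8
  · rw [ext4 (x := x) (y := y) h0 h1 h5 h6]
  · have hs' : (x 2 : ℝ) + x 3 = y 2 + y 3 := hs
    have h5' : (x 2 : ℝ) = 0 := h5
    have h6' : (y 3 : ℝ) = 0 := h6
    exact char_step2 i j x y h5' (by linarith) h6' h0.symm h1.symm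
  · have hs' : (x 2 : ℝ) + x 3 = y 2 + y 3 := hs
    have h5' : (y 2 : ℝ) = 0 := h5
    have h6' : (x 3 : ℝ) = 0 := h6
    exact (char_step2 i j' y x h5' (by linarith) h6' h0 h1).symm

theorem F1_inj : Function.Injective (F1 m n) := by
  intro p q h
  obtain ⟨⟨⟨i, j⟩, x⟩, rfl⟩ := Quot.exists_rep p
  obtain ⟨⟨⟨i', j'⟩, y⟩, rfl⟩ := Quot.exists_rep q
  change J (vert m n (i, j)) x = J (vert m n (i', j')) y at h
  have h1 := congrArg Subtype.val h
  have h1' := ((J_vert (m := m) (n := n) (i, j) x).symm.trans h1).trans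
    (J_vert (m := m) (n := n) (i', j') y)
  obtain ⟨h2, h3⟩ := Prod.mk.inj h1'
  -- intermediate point
  have hs1 : (x 0 : ℝ) + x 1 = y 0 + y 1 :=
    (arc_inj i i' (x.2.1 0) (x.2.1 1) (y.2.1 0) (y.2.1 1) h2).1
  have hx := x.2.2
  rw [Fin.sum_univ_four] at hx
  have hx' : (x 0 : ℝ) + x 1 + x 2 + x 3 = 1 := hx
  let w : stdSimplex ℝ (Fin 4) := ⟨![y 0, y 1, x 2, x 3], by
    refine ⟨?_, ?_⟩
    · intro k
      fin_cases k
      · exact y.2.1 0
      · exact y.2.1 1
      · exact x.2.1 2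
      · exact x.2.1 3
    · simp only [Fin.sum_univ_four, Matrix.cons_val_zero, Matrix.cons_val_one, Matrix.cons_val]
      linarith⟩
  have e1 : (joinTri m n).char (i, j) x = (joinTri m n).char (i', j) w :=
    char_first i i' j x w rfl rfl h2
  have e2 : (joinTri m n).char (i', j) w = (joinTri m n).char (i', j') y :=
    char_second i' j j' w y rfl rfl h3
  exact e1.trans e2

instance : CompactSpace (joinTri m n).Space := by
  have : CompactSpace (joinTri m n).Pre := inferInstance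
  exact inferInstanceAs (CompactSpace (Quot (joinTri m n).Glued))

/-- The quotient space is homeomorphic to the sphere. -/
noncomputable def homeo (m n : ℕ) : (joinTri m n).Space ≃ₜ S3 :=
  Continuous.homeoOfEquivCompactToT2 (f := Equiv.ofBijective (F1 m n) ⟨F1_inj, F1_surj⟩)
    continuous_F1

theorem homeo_char (t : (joinTri m n).Tet) (x : stdSimplex ℝ (Fin 4)) :
    homeo m n ((joinTri m n).char t x) = J (vert m n t) x := rfl

/-- The unit sphere of `ℂ²` is the unit sphere of `ℝ⁴`. -/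
noncomputable def sphereHomeo : S3 ≃ₜ Metric.sphere (0 : EuclideanSpace ℝ (Fin 4)) 1 where
  toFun p := ⟨!₂[p.1.1.re, p.1.1.im, p.1.2.re, p.1.2.im], by
    have h := p.2
    rw [Complex.sq_norm, Complex.sq_norm, Complex.normSq_apply, Complex.normSq_apply] at h
    rw [mem_sphere_zero_iff_norm, EuclideanSpace.norm_eq, Real.sqrt_eq_one, Fin.sum_univ_four]
    simp only [Real.norm_eq_abs, sq_abs, Matrix.cons_val_zero, Matrix.cons_val_one,
      Matrix.cons_val]
    linarith⟩
  invFun q := ⟨(⟨q.1 0, q.1 1⟩, ⟨q.1 2, q.1 3⟩), by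
    have h := q.2
    rw [mem_sphere_zero_iff_norm, EuclideanSpace.norm_eq, Real.sqrt_eq_one,
      Fin.sum_univ_four] at h
    rw [Complex.sq_norm, Complex.sq_norm, Complex.normSq_apply, Complex.normSq_apply]
    simp only [Real.norm_eq_abs, sq_abs] at h
    simp only
    linarith⟩
  left_inv p := by
    apply Subtype.ext
    simp
  right_inv q := by
    apply Subtype.ext
    ext k
    fin_cases k <;> simp
  continuous_toFun := by
    apply Continuous.subtype_mk
    apply (PiLp.continuous_toLp 2 _).comp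
    apply continuous_pi
    intro k
    fin_cases k
    · exact Complex.continuous_re.comp (continuous_fst.comp continuous_subtype_val)
    · exact Complex.continuous_im.comp (continuous_fst.comp continuous_subtype_val)
    · exact Complex.continuous_re.comp (continuous_snd.comp continuous_subtype_val)
    · exact Complex.continuous_im.comp (continuous_snd.comp continuous_subtype_val)
  continuous_invFun := by
    apply Continuous.subtype_mk
    have hc : ∀ k : Fin 4, Continuous fun q : Metric.sphere (0 : EuclideanSpace ℝ (Fin 4)) 1 =>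
        q.1 k := by
      intro k
      fun_prop
    have hm : ∀ f g : Metric.sphere (0 : EuclideanSpace ℝ (Fin 4)) 1 → ℝ, Continuous f →
        Continuous g → Continuous fun q => (⟨f q, g q⟩ : ℂ) := by
      intro f g hf hg
      have : (fun q => (⟨f q, g q⟩ : ℂ)) = fun q => (f q : ℂ) + (g q : ℂ) * Complex.I := by
        funext q
        apply Complex.ext <;> simp
      rw [this]
      fun_prop
    exact (hm _ _ (hc 0) (hc 1)).prodMk (hm _ _ (hc 2) (hc 3))

end Pool.Agent.H297R3.Luo
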