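import Mathlib
import Pool.Agent.H297R3.Luo.Join

set_option autoImplicit false

namespace Pool.Agent.H297R3.Luo

/-! ### the norm of chains -/

section Norm

variable {X : Type} [TopologicalSpace X] {k : ℕ}

theorem norm1_nonneg (c : Chain k X) : 0 ≤ norm1 c :=
  Finset.sum_nonneg fun _ _ => abs_nonneg _

theorem norm1_of_subset (c : Chain k X) (s : Finset (C(stdSimplex ℝ (Fin (k + 1)), X)))
    (h : c.support ⊆ s) : norm1 c = ∑ σ ∈ s, |c σ| := by
  unfold norm1
  apply Finset.sum_subset h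
  intro σ _ h2
  rw [Finsupp.notMem_support_iff.mp h2, abs_zero]

theorem norm1_add_le (c c' : Chain k X) : norm1 (c + c') ≤ norm1 c + norm1 c' := by
  classical
  rw [norm1_of_subset c (c.support ∪ c'.support) Finset.subset_union_left,
    norm1_of_subset c' (c.support ∪ c'.support) Finset.subset_union_right,
    norm1_of_subset (c + c') (c.support ∪ c'.support) Finsupp.support_add,
    ← Finset.sum_add_distrib]
  apply Finset.sum_le_sum
  intro σ _
  rw [Finsupp.add_apply]
  exact abs_add_le _ _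

theorem norm1_zero : norm1 (0 : Chain k X) = 0 := by
  unfold norm1
  simp

theorem norm1_single_le (σ : C(stdSimplex ℝ (Fin (k + 1)), X)) (a : ℝ) :
    norm1 (Finsupp.single σ a : Chain k X) ≤ |a| := by
  rw [norm1_of_subset _ {σ} Finsupp.support_single_subset]
  simp

theorem norm1_sum_single_le {ι : Type*} (s : Finset ι)
    (σ : ι → C(stdSimplex ℝ (Fin (k + 1)), X)) (a : ι → ℝ) :
    norm1 (∑ i ∈ s, Finsupp.single (σ i) (a i) : Chain k X) ≤ ∑ i ∈ s, |a i| := by
  classical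
  induction s using Finset.induction_on with
  | empty => simp [norm1_zero]
  | insert i s hi ih =>
    rw [Finset.sum_insert hi, Finset.sum_insert hi]
    refine (norm1_add_le _ _).trans ?_
    exact add_le_add (norm1_single_le _ _) ih

end Norm

/-! ### push-forward of chains -/

section Push

variable {X Y : Type} [TopologicalSpace X] [TopologicalSpace Y]

/-- The push-forward of chains. -/
noncomputable def push (f : C(X, Y)) (k : ℕ) : Chain k X →ₗ[ℝ] Chain k Y :=
  Finsupp.lmapDomain ℝ ℝ (fun σ => f.comp σ)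

theorem push_single (f : C(X, Y)) (k : ℕ) (σ : C(stdSimplex ℝ (Fin (k + 1)), X)) (a : ℝ) :
    push f k (Finsupp.single σ a) = Finsupp.single (f.comp σ) a := by
  unfold push
  rw [Finsupp.lmapDomain_apply, Finsupp.mapDomain_single]

theorem bdry_single (k : ℕ) (σ : C(stdSimplex ℝ (Fin (k + 2)), X)) (a : ℝ) :
    bdry k (Finsupp.single σ a) =
      ∑ i : Fin (k + 2), ((-1 : ℝ) ^ (i : ℕ)) • Finsupp.single (σ.comp (face i)) a := by
  unfold bdry
  rw [Finsupp.linearCombination_single, Finset.smul_sum]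
  apply Finset.sum_congr rfl
  intro i _
  rw [smul_comm]
  congr 1
  rw [Finsupp.smul_single, smul_eq_mul, mul_one]

theorem bdry_push (f : C(X, Y)) (k : ℕ) (c : Chain (k + 1) X) :
    bdry k (push f (k + 1) c) = push f k (bdry k c) := by
  have h : (bdry k) ∘ₗ (push f (k + 1)) = (push f k) ∘ₗ (bdry k) := by
    apply Finsupp.lhom_ext
    intro σ a
    rw [LinearMap.comp_apply, LinearMap.comp_apply, push_single, bdry_single, bdry_single, map_sum]
    apply Finset.sum_congr rfl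
    intro i _
    rw [map_smul, push_single]
    rfl
  exact LinearMap.congr_fun h c

theorem norm1_push_le (f : C(X, Y)) (k : ℕ) (c : Chain k X) : norm1 (push f k c) ≤ norm1 c := by
  have h : push f k c = ∑ σ ∈ c.support, Finsupp.single (f.comp σ) (c σ) := by
    unfold push
    rw [Finsupp.lmapDomain_apply]
    rfl
  rw [h]
  exact norm1_sum_single_le _ _ _

end Push

/-! ### chains in the 3-sphere -/

/-- 3-simplex -/
noncomputable def Sg (a b c d : ℝ) : Chain 3 S3 :=
  Finsupp.single (J ![(false, a), (false, b), (true, c), (true, d)]) 1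

/-- 4-simplex -/
noncomputable def Tg (a b c d e : ℝ) : Chain 4 S3 :=
  Finsupp.single (J ![(false, a), (false, b), (false, c), (true, d), (true, e)]) 1

/-- 3-simplex -/
noncomputable def Ug (a b c d : ℝ) : Chain 3 S3 :=
  Finsupp.single (J ![(false, a), (false, b), (false, c), (true, d)]) 1

/-- 2-simplex -/
noncomputable def Pg (a c d : ℝ) : Chain 2 S3 :=
  Finsupp.single (J ![(false, a), (true, c), (true, d)]) 1

/-- 2-simplex -/
noncomputable def Qg (a b c : ℝ) : Chain 2 S3 :=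
  Finsupp.single (J ![(false, a), (false, b), (true, c)]) 1

theorem bdry_Tg (a b c d e : ℝ) : bdry 3 (Tg a b c d e) =
    Sg b c d e - Sg a c d e + Sg a b d e - Ug a b c e + Ug a b c d := by
  unfold Tg
  rw [bdry_single]
  simp only [J_face]
  rw [Fin.sum_univ_five]
  have h0 : (![(false, a), (false, b), (false, c), (true, d), (true, e)] : Fin 5 → Bool × ℝ) ∘
      Fin.succAbove (0 : Fin 5) = ![(false, b), (false, c), (true, d), (true, e)] := by
    funext i; fin_cases i <;> rfl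
  have h1 : (![(false, a), (false, b), (false, c), (true, d), (true, e)] : Fin 5 → Bool × ℝ) ∘
      Fin.succAbove (1 : Fin 5) = ![(false, a), (false, c), (true, d), (true, e)] := by
    funext i; fin_cases i <;> rfl
  have h2 : (![(false, a), (false, b), (false, c), (true, d), (true, e)] : Fin 5 → Bool × ℝ) ∘
      Fin.succAbove (2 : Fin 5) = ![(false, a), (false, b), (true, d), (true, e)] := by
    funext i; fin_cases i <;> rfl
  have h3 : (![(false, a), (false, b), (false, c), (true, d), (true, e)] : Fin 5 → Bool × ℝ) ∘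
      Fin.succAbove (3 : Fin 5) = ![(false, a), (false, b), (false, c), (true, e)] := by
    funext i; fin_cases i <;> rfl
  have h4 : (![(false, a), (false, b), (false, c), (true, d), (true, e)] : Fin 5 → Bool × ℝ) ∘
      Fin.succAbove (4 : Fin 5) = ![(false, a), (false, b), (false, c), (true, d)] := by
    funext i; fin_cases i <;> rfl
  rw [h0, h1, h2, h3, h4]
  have e0 : ((-1 : ℝ) ^ ((0 : Fin 5) : ℕ)) = 1 := by norm_num
  have e1 : ((-1 : ℝ) ^ ((1 : Fin 5) : ℕ)) = -1 := by norm_num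
  have e2 : ((-1 : ℝ) ^ ((2 : Fin 5) : ℕ)) = 1 := by
    rw [show ((2 : Fin 5) : ℕ) = 2 from rfl]; norm_num
  have e3 : ((-1 : ℝ) ^ ((3 : Fin 5) : ℕ)) = -1 := by
    rw [show ((3 : Fin 5) : ℕ) = 3 from rfl]; norm_num
  have e4 : ((-1 : ℝ) ^ ((4 : Fin 5) : ℕ)) = 1 := by
    rw [show ((4 : Fin 5) : ℕ) = 4 from rfl]; norm_num
  rw [e0, e1, e2, e3, e4]
  unfold Sg Ug
  module

theorem bdry_Sg (a b c d : ℝ) : bdry 2 (Sg a b c d) =
    Pg b c d - Pg a c d + Qg a b d - Qg a b c := by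
  unfold Sg
  rw [bdry_single]
  simp only [J_face]
  rw [Fin.sum_univ_four]
  have h0 : (![(false, a), (false, b), (true, c), (true, d)] : Fin 4 → Bool × ℝ) ∘
      Fin.succAbove (0 : Fin 4) = ![(false, b), (true, c), (true, d)] := by
    funext i; fin_cases i <;> rfl
  have h1 : (![(false, a), (false, b), (true, c), (true, d)] : Fin 4 → Bool × ℝ) ∘
      Fin.succAbove (1 : Fin 4) = ![(false, a), (true, c), (true, d)] := by
    funext i; fin_cases i <;> rfl
  have h2 : (![(false, a), (false, b), (true, c), (true, d)] : Fin 4 → Bool × ℝ) ∘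
      Fin.succAbove (2 : Fin 4) = ![(false, a), (false, b), (true, d)] := by
    funext i; fin_cases i <;> rfl
  have h3 : (![(false, a), (false, b), (true, c), (true, d)] : Fin 4 → Bool × ℝ) ∘
      Fin.succAbove (3 : Fin 4) = ![(false, a), (false, b), (true, c)] := by
    funext i; fin_cases i <;> rfl
  rw [h0, h1, h2, h3]
  have e0 : ((-1 : ℝ) ^ ((0 : Fin 4) : ℕ)) = 1 := by norm_num
  have e1 : ((-1 : ℝ) ^ ((1 : Fin 4) : ℕ)) = -1 := by norm_num
  have e2 : ((-1 : ℝ) ^ ((2 : Fin 4) : ℕ)) = 1 := by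
    rw [show ((2 : Fin 4) : ℕ) = 2 from rfl]; norm_num
  have e3 : ((-1 : ℝ) ^ ((3 : Fin 4) : ℕ)) = -1 := by
    rw [show ((3 : Fin 4) : ℕ) = 3 from rfl]; norm_num
  rw [e0, e1, e2, e3]
  unfold Pg Qg
  module

theorem Ug_one (a b c : ℝ) : Ug a b c 1 = Ug a b c 0 := by
  unfold Ug
  rw [J_shift ![(false, a), (false, b), (false, c), (true, 0)]
    ![(false, a), (false, b), (false, c), (true, 1)] (fun b => if b then 1 else 0)]
  intro i
  fin_cases i <;> simp

theorem Qg_one (a b : ℝ) : Qg a b 1 = Qg a b 0 := by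
  unfold Qg
  rw [J_shift ![(false, a), (false, b), (true, 0)]
    ![(false, a), (false, b), (true, 1)] (fun b => if b then 1 else 0)]
  intro i
  fin_cases i <;> simp

theorem Pg_shift (a c d : ℝ) (n : ℤ) : Pg (a + n) c d = Pg a c d := by
  unfold Pg
  rw [J_shift ![(false, a), (true, c), (true, d)]
    ![(false, a + n), (true, c), (true, d)] (fun b => if b then 0 else n)]
  intro i
  fin_cases i <;> simp

theorem Sg_shift (a b c d : ℝ) (n : ℤ) : Sg (a + n) (b + n) c d = Sg a b c d := by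
  unfold Sg
  rw [J_shift ![(false, a), (false, b), (true, c), (true, d)]
    ![(false, a + n), (false, b + n), (true, c), (true, d)] (fun b => if b then 0 else n)]
  intro i
  fin_cases i <;> simp

/-- The join of an arc with the circle divided into `N` parts. -/
noncomputable def Zc (N : ℕ) (a b : ℝ) : Chain 3 S3 :=
  ∑ j ∈ Finset.range N, Sg a b ((j : ℝ) / N) (((j : ℝ) + 1) / N)

theorem tele {A : Type*} [AddCommGroup A] (N : ℕ) (hN : 0 < N) (f : ℝ → A) (h : f 1 = f 0) :
    ∑ j ∈ Finset.range N, (f (((j : ℝ) + 1) / N) - f ((j : ℝ) / N)) = 0 := by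
  have h1 := Finset.sum_range_sub (fun j : ℕ => f ((j : ℝ) / N)) N
  have h2 : (N : ℝ) ≠ 0 := by positivity
  simp only [Nat.cast_add, Nat.cast_one, Nat.cast_zero, zero_div, div_self h2, h, sub_self] at h1
  exact h1

theorem Zc_add (N : ℕ) (hN : 0 < N) (a b c : ℝ) :
    ∃ B : Chain 4 S3, Zc N b c - Zc N a c + Zc N a b = bdry 3 B := by
  refine ⟨∑ j ∈ Finset.range N, Tg a b c ((j : ℝ) / N) (((j : ℝ) + 1) / N), ?_⟩
  rw [map_sum]
  simp only [bdry_Tg]
  have h := tele N hN (fun t => Ug a b c t) (Ug_one a b c)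
  unfold Zc
  rw [← Finset.sum_sub_distrib, ← Finset.sum_add_distrib]
  have h2 : ∀ j : ℕ, Sg b c ((j : ℝ) / N) (((j : ℝ) + 1) / N) -
      Sg a c ((j : ℝ) / N) (((j : ℝ) + 1) / N) + Sg a b ((j : ℝ) / N) (((j : ℝ) + 1) / N) -
      Ug a b c (((j : ℝ) + 1) / N) + Ug a b c ((j : ℝ) / N) =
      (Sg b c ((j : ℝ) / N) (((j : ℝ) + 1) / N) -
      Sg a c ((j : ℝ) / N) (((j : ℝ) + 1) / N) + Sg a b ((j : ℝ) / N) (((j : ℝ) + 1) / N)) -
      (Ug a b c (((j : ℝ) + 1) / N) - Ug a b c ((j : ℝ) / N)) := by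
    intro j; abel
  simp only [h2]
  rw [Finset.sum_sub_distrib, h, sub_zero]

theorem Zc_sum (N : ℕ) (hN : 0 < N) (θ : ℕ → ℝ) (m : ℕ) :
    ∃ B : Chain 4 S3, ∑ i ∈ Finset.range m, Zc N (θ i) (θ (i + 1)) =
      Zc N (θ 0) (θ m) + bdry 3 B := by
  induction m with
  | zero =>
    obtain ⟨B, hB⟩ := Zc_add N hN (θ 0) (θ 0) (θ 0)
    refine ⟨-B, ?_⟩
    rw [map_neg, ← hB]
    simp
  | succ m ih =>
    obtain ⟨B, hB⟩ := ih
    obtain ⟨B', hB'⟩ := Zc_add N hN (θ 0) (θ m) (θ (m + 1))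
    refine ⟨B + B', ?_⟩
    rw [Finset.sum_range_succ, hB, map_add, ← hB']
    abel

theorem Zc_cycle (N : ℕ) (hN : 0 < N) (d : ℕ) : bdry 2 (Zc N 0 d) = 0 := by
  unfold Zc
  rw [map_sum]
  simp only [bdry_Sg]
  have h := tele N hN (fun t => Qg 0 d t) (Qg_one 0 d)
  have h2 : ∀ j : ℕ, Pg (d : ℝ) ((j : ℝ) / N) (((j : ℝ) + 1) / N) -
      Pg 0 ((j : ℝ) / N) (((j : ℝ) + 1) / N) + Qg 0 d (((j : ℝ) + 1) / N) -
      Qg 0 d ((j : ℝ) / N) = Qg 0 d (((j : ℝ) + 1) / N) - Qg 0 d ((j : ℝ) / N) := by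
    intro j
    have := Pg_shift 0 ((j : ℝ) / N) (((j : ℝ) + 1) / N) d
    rw [zero_add] at this
    have h3 : ((d : ℤ) : ℝ) = (d : ℝ) := by norm_cast
    rw [h3] at this
    rw [this]
    abel
  simp only [h2]
  exact h

/-- The cycle of the triangulation is homologous to `1 / d` times the `d`-fold one. -/
theorem Zc_main (M N : ℕ) (hM : 0 < M) (hN : 0 < N) (d : ℕ) (hd : 0 < d) :
    ∃ B : Chain 4 S3, (1 / (d : ℝ)) • Zc N 0 d =
      ∑ i ∈ Finset.range M, Zc N ((i : ℝ) / M) (((i : ℝ) + 1) / M) + bdry 3 B := by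
  obtain ⟨B1, hB1⟩ := Zc_sum N hN (fun i => (i : ℝ) / M) M
  obtain ⟨B2, hB2⟩ := Zc_sum N hN (fun i => (i : ℝ)) d
  have h1 : ∀ i : ℕ, Zc N (i : ℝ) ((i + 1 : ℕ) : ℝ) = Zc N 0 1 := by
    intro i
    unfold Zc
    apply Finset.sum_congr rfl
    intro j _
    have := Sg_shift 0 1 ((j : ℝ) / N) (((j : ℝ) + 1) / N) i
    rw [← this]
    congr 1
    · push_cast; ring
    · push_cast; ring
  simp only [h1, Finset.sum_const, Finset.card_range] at hB2
  have hM' : (M : ℝ) ≠ 0 := by positivity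
  have hd' : (d : ℝ) ≠ 0 := by positivity
  simp only [Nat.cast_zero, zero_div, div_self hM'] at hB1
  simp only [Nat.cast_zero] at hB2
  have h2 : ∑ i ∈ Finset.range M, Zc N ((i : ℝ) / M) (((i : ℝ) + 1) / M) =
      ∑ i ∈ Finset.range M, Zc N ((i : ℝ) / M) (((i + 1 : ℕ) : ℝ) / M) := by
    apply Finset.sum_congr rfl
    intro i _
    push_cast
    rfl
  refine ⟨-((1 / (d : ℝ)) • B2) - B1, ?_⟩
  rw [h2, hB1, map_sub, map_neg, map_smul]
  have h3 : Zc N 0 1 = (1 / (d : ℝ)) • (d • Zc N 0 1) := by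
    rw [← Nat.cast_smul_eq_nsmul ℝ, smul_smul, one_div, inv_mul_cancel₀ hd', one_smul]
  rw [h3, hB2]
  module

theorem Zc_norm (N : ℕ) (a b : ℝ) (r : ℝ) (hr : 0 ≤ r) : norm1 (r • Zc N a b) ≤ N * r := by
  have h : r • Zc N a b = ∑ j ∈ Finset.range N, Finsupp.single
      (J ![(false, a), (false, b), (true, (j : ℝ) / N), (true, ((j : ℝ) + 1) / N)]) r := by
    unfold Zc Sg
    rw [Finset.smul_sum]
    apply Finset.sum_congr rfl
    intro j _
    rw [Finsupp.smul_single, smul_eq_mul, mul_one]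
  rw [h]
  refine (norm1_sum_single_le _ _ _).trans ?_
  simp [abs_of_nonneg hr]

end Pool.Agent.H297R3.Luo
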