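import Mathlib
import Pool.Agent.H297R3.Luo.Defs

set_option autoImplicit false

namespace Pool.Agent.H297R3.Luo

open Real MeasureTheory

/-- the integrand -/
noncomputable def lg (s : ℝ) : ℝ := Real.log |2 * Real.sin s|

theorem lg_integrable (a b : ℝ) : IntervalIntegrable lg volume a b := by
  have h : MeromorphicOn (fun s : ℝ => 2 * Real.sin s) (Set.uIcc a b) := by
    intro x _
    exact (MeromorphicAt.const (2 : ℝ) x).mul (analyticAt_sin.meromorphicAt)
  have h2 := h.intervalIntegrable_log_norm
  have h3 : lg = fun s => Real.log ‖(fun s : ℝ => 2 * Real.sin s) s‖ := by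
    funext s
    simp only [lg, Real.norm_eq_abs]
  rw [h3]
  exact h2

theorem lob_neg (t : ℝ) : lob (-t) = -lob t := by
  unfold lob
  have h := intervalIntegral.integral_comp_neg (f := fun s => Real.log |2 * Real.sin s|)
    (a := 0) (b := t)
  rw [neg_zero] at h
  rw [intervalIntegral.integral_symm, neg_neg, ← h, neg_neg]
  congr 1
  funext s
  simp

theorem lob_key : 0 < 2 * lob (π / 3) - lob (π / 2) - lob (π / 6) := by
  have e1 : lob (π / 3) - lob (π / 2) = ∫ s in (π / 3)..(π / 2), lg s := by
    unfold lob
    have := intervalIntegral.integral_add_adjacent_intervals (lg_integrable 0 (π / 3))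
      (lg_integrable (π / 3) (π / 2))
    unfold lg at *
    linarith
  have e2 : lob (π / 3) - lob (π / 6) = - ∫ s in (π / 6)..(π / 3), lg s := by
    unfold lob
    have := intervalIntegral.integral_add_adjacent_intervals (lg_integrable 0 (π / 6))
      (lg_integrable (π / 6) (π / 3))
    unfold lg at *
    linarith
  have e3 : ∫ s in (π / 6)..(π / 3), lg (s + π / 6) = ∫ s in (π / 3)..(π / 2), lg s := by
    rw [intervalIntegral.integral_comp_add_right]
    congr 1 <;> ring
  have hpi := Real.pi_pos
  have hpos : ∀ s ∈ Set.Icc (π / 6) (π / 3), 0 < Real.sin s := by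
    intro s hs
    exact Real.sin_pos_of_pos_of_lt_pi (by linarith [hs.1]) (by linarith [hs.2])
  have hpos2 : ∀ s ∈ Set.Icc (π / 6) (π / 3), 0 < Real.sin (s + π / 6) := by
    intro s hs
    exact Real.sin_pos_of_pos_of_lt_pi (by linarith [hs.1]) (by linarith [hs.2])
  have hlt : ∀ s ∈ Set.Icc (π / 6) (π / 3), lg s < lg (s + π / 6) := by
    intro s hs
    unfold lg
    have h1 : Real.sin s < Real.sin (s + π / 6) := by
      apply Real.sin_lt_sin_of_lt_of_le_pi_div_two
      · linarith [hs.1]
      · linarith [hs.2]
      · linarith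
    rw [abs_of_pos (by linarith [hpos s hs]), abs_of_pos (by linarith [hpos2 s hs])]
    exact Real.log_lt_log (by linarith [hpos s hs]) (by linarith)
  have hc1 : ContinuousOn lg (Set.Icc (π / 6) (π / 3)) := by
    intro s hs
    apply ContinuousAt.continuousWithinAt
    unfold lg
    apply ContinuousAt.log
    · fun_prop
    · have := hpos s hs
      positivity
  have hc2 : ContinuousOn (fun s => lg (s + π / 6)) (Set.Icc (π / 6) (π / 3)) := by
    intro s hs
    apply ContinuousAt.continuousWithinAt
    unfold lg
    apply ContinuousAt.log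
    · fun_prop
    · have := hpos2 s hs
      positivity
  have h := intervalIntegral.integral_lt_integral_of_continuousOn_of_le_of_exists_lt
    (a := π / 6) (b := π / 3) (by linarith) hc1 hc2
    (fun s hs => (hlt s ⟨hs.1.le, hs.2⟩).le) ⟨π / 6, ⟨le_refl _, by linarith⟩,
      hlt _ ⟨le_refl _, by linarith⟩⟩
  rw [e3] at h
  linarith

end Pool.Agent.H297R3.Luo
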