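import Mathlib
import Pool.Agent.H297R3.Luo.Homology
import Pool.Agent.H297R3.Luo.Homeo

set_option autoImplicit false

namespace Pool.Agent.H297R3.Luo

variable {m n : ℕ}

/-- the inverse homeomorphism as a continuous map -/
noncomputable def back (m n : ℕ) : C(S3, (joinTri m n).Space) :=
  ⟨(homeo m n).symm, (homeo m n).symm.continuous⟩

theorem back_vert (t : (joinTri m n).Tet) :
    (back m n).comp (J (vert m n t)) = (joinTri m n).char t := by
  apply ContinuousMap.ext
  intro x
  show (homeo m n).symm (J (vert m n t) x) = (joinTri m n).char t x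
  rw [← homeo_char, Homeomorph.symm_apply_apply]

theorem push_cycle : push (back m n) 3 (∑ i ∈ Finset.range (2 * m + 1 + 1),
      Zc (2 * n + 1 + 1) ((i : ℝ) / (2 * m + 1 + 1 : ℕ)) (((i : ℝ) + 1) / (2 * m + 1 + 1 : ℕ))) =
    ∑ t : (joinTri m n).Tet, Finsupp.single ((joinTri m n).char t) 1 := by
  have h1 : ∑ t : (joinTri m n).Tet, Finsupp.single ((joinTri m n).char t) (1 : ℝ) =
      ∑ t : Fin (2 * m + 1 + 1) × Fin (2 * n + 1 + 1),
        push (back m n) 3 (Finsupp.single (J (vert m n t)) 1) := by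
    apply Finset.sum_congr rfl
    intro t _
    rw [push_single, back_vert]
  rw [h1, Fintype.sum_prod_type, map_sum]
  unfold Zc
  simp only [map_sum]
  rw [Finset.sum_range]
  apply Finset.sum_congr rfl
  intro i _
  rw [Finset.sum_range]
  rfl

theorem isFundamental (d : ℕ) (hd : 0 < d) : ∃ c, (joinTri m n).IsFundamental c ∧
    norm1 c ≤ ((2 * n + 1 + 1 : ℕ) : ℝ) * (1 / (d : ℝ)) := by
  obtain ⟨B, hB⟩ := Zc_main (2 * m + 1 + 1) (2 * n + 1 + 1) (by omega) (by omega) d hd
  refine ⟨push (back m n) 3 ((1 / (d : ℝ)) • Zc (2 * n + 1 + 1) 0 d), ⟨?_, push (back m n) 4 B, 0,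
    ?_, ?_⟩, ?_⟩
  · rw [bdry_push, map_smul, Zc_cycle _ (by omega), smul_zero, map_zero]
  · intro σ hσ
    simp at hσ
  · rw [add_zero, bdry_push, ← push_cycle, ← map_add, hB]
  · exact (norm1_push_le _ _ _).trans (Zc_norm _ _ _ _ (by positivity))

theorem gromovNorm_zero (m n : ℕ) : (joinTri m n).gromovNorm = 0 := by
  unfold Triangulation.gromovNorm
  have hlow : ∀ x ∈ {x | ∃ c, (joinTri m n).IsFundamental c ∧ x = norm1 c}, 0 ≤ x := by
    rintro x ⟨c, _, rfl⟩
    exact norm1_nonneg c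
  have hbdd : BddBelow {x | ∃ c, (joinTri m n).IsFundamental c ∧ x = norm1 c} := ⟨0, hlow⟩
  apply le_antisymm
  · apply le_of_forall_pos_le_add
    intro ε hε
    obtain ⟨d, hd⟩ := exists_nat_gt (((2 * n + 1 + 1 : ℕ) : ℝ) / ε)
    have hd0 : 0 < d := by
      rcases Nat.eq_zero_or_pos d with h | h
      · rw [h] at hd
        have : (0 : ℝ) ≤ ((2 * n + 1 + 1 : ℕ) : ℝ) / ε := by positivity
        push_cast at hd this
        linarith
      · exact h
    obtain ⟨c, hc, hn⟩ := isFundamental (m := m) (n := n) d hd0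
    have h1 : sInf {x | ∃ c, (joinTri m n).IsFundamental c ∧ x = norm1 c} ≤ norm1 c :=
      csInf_le hbdd ⟨c, hc, rfl⟩
    refine h1.trans (hn.trans ?_)
    have hd' : (0 : ℝ) < d := by exact_mod_cast hd0
    rw [zero_add, mul_one_div, div_le_iff₀ hd']
    rw [div_lt_iff₀ hε] at hd
    linarith
  · exact Real.sInf_nonneg hlow

end Pool.Agent.H297R3.Luo
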