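import Mathlib
import Pool.Agent.H297R3.Luo.Lob
import Pool.Agent.H297R3.Luo.Tri

set_option autoImplicit false

namespace Pool.Agent.H297R3.Luo

open Complex

/-- the square root of 3 -/
noncomputable def s3 : ℂ := ((Real.sqrt 3 : ℝ) : ℂ)

theorem s3_sq : s3 * s3 = 3 := by
  unfold s3
  rw [← Complex.ofReal_mul, Real.mul_self_sqrt (by norm_num)]
  norm_num

theorem s3_ne : s3 ≠ 0 := by
  intro h
  have := s3_sq
  rw [h] at this
  norm_num at this

/-- The shape of a tetrahedron, according to the parities. -/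
noncomputable def shape : Bool → Bool → Fin 3 → ℂ
  | false, false => ![(1 + s3 * I) / 2, (1 + s3 * I) / 2, (1 + s3 * I) / 2]
  | true, true => ![(1 + s3 * I) / 2, (1 + s3 * I) / 2, (1 + s3 * I) / 2]
  | false, true => ![1 - s3 * I, -(s3 * I) / 3, (3 - s3 * I) / 4]
  | true, false => ![(1 - s3 * I) / 4, (3 - s3 * I) / 3, -(s3 * I)]

theorem sI_sq : (s3 * I) * (s3 * I) = -3 := by
  have := s3_sq
  have h : (s3 * I) * (s3 * I) = (s3 * s3) * (I * I) := by ring
  rw [h, this, Complex.I_mul_I]
  ring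

theorem im_sI : (s3 * I).im = Real.sqrt 3 := by
  unfold s3
  simp

theorem re_sI : (s3 * I).re = 0 := by
  unfold s3
  simp

theorem im_pos : 0 < Real.sqrt 3 := by positivity

theorem shape_im_ne (a b : Bool) (k : Fin 3) : (shape a b k).im ≠ 0 := by
  have h := im_pos
  have h0 : Real.sqrt 3 ≠ 0 := h.ne'
  cases a <;> cases b <;> fin_cases k <;>
    simp [shape, h0, s3]

theorem shape_ne (a b : Bool) (k : Fin 3) : shape a b k ≠ 0 ∧ shape a b k ≠ 1 := by
  have h := shape_im_ne a b k
  constructor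
  · intro h1; rw [h1] at h; simp at h
  · intro h1; rw [h1] at h; simp at h

theorem shape_succ (a b : Bool) (k : Fin 3) : shape a b (k + 1) = 1 / (1 - shape a b k) := by
  have h1 : 1 - shape a b k ≠ 0 := by
    intro h
    exact (shape_ne a b k).2 (sub_eq_zero.mp h).symm
  rw [eq_div_iff h1]
  have hs := sI_sq
  clear h1
  cases a <;> cases b <;> fin_cases k <;> simp [shape] <;>
    first
      | linear_combination (-1 / 4 : ℂ) * hs
      | linear_combination (-1 / 3 : ℂ) * hs
      | linear_combination (-1 / 12 : ℂ) * hs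

/-! ### products -/

theorem prod_A (b : Bool) : ∃ r : ℝ, 0 < r ∧
    shape b false 0 * shape b true 0 = (r : ℂ) := by
  have hs := sI_sq
  cases b
  · refine ⟨2, by norm_num, ?_⟩
    simp [shape]
    linear_combination (-1 / 2 : ℂ) * hs
  · refine ⟨1 / 2, by norm_num, ?_⟩
    simp [shape]
    linear_combination (-1 / 8 : ℂ) * hs

theorem prod_B (b : Bool) : ∃ r : ℝ, 0 < r ∧
    shape false b 0 * shape true b 0 = (r : ℂ) := by
  have hs := sI_sq
  cases b
  · refine ⟨1 / 2, by norm_num, ?_⟩
    simp [shape]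
    linear_combination (-1 / 8 : ℂ) * hs
  · refine ⟨2, by norm_num, ?_⟩
    simp [shape]
    linear_combination (-1 / 2 : ℂ) * hs

theorem prod_C (a b : Bool) : ∃ r : ℝ, 0 < r ∧
    shape a b 1 * shape (!a) (!b) 1 * shape a (!b) 2 * shape (!a) b 2 = (r : ℂ) := by
  have hs := sI_sq
  cases a <;> cases b
  · refine ⟨3 / 2, by norm_num, ?_⟩
    simp [shape]
    generalize s3 * I = u at *
    linear_combination ((u ^ 2 - u - 6) / 16 - 1 / 8 : ℂ) * hs
  · refine ⟨2 / 3, by norm_num, ?_⟩
    simp [shape]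
    generalize s3 * I = u at *
    linear_combination ((u ^ 2 - u - 6) / 36 - 1 / 18 : ℂ) * hs
  · refine ⟨2 / 3, by norm_num, ?_⟩
    simp [shape]
    generalize s3 * I = u at *
    linear_combination ((u ^ 2 - u - 6) / 36 - 1 / 18 : ℂ) * hs
  · refine ⟨3 / 2, by norm_num, ?_⟩
    simp [shape]
    generalize s3 * I = u at *
    linear_combination ((u ^ 2 - u - 6) / 16 - 1 / 8 : ℂ) * hs

/-! ### arguments and volume -/

theorem arg_polar {z : ℂ} (r θ : ℝ) (hr : 0 < r) (h1 : -Real.pi < θ) (h2 : θ ≤ Real.pi)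
    (hre : z.re = r * Real.cos θ) (him : z.im = r * Real.sin θ) : Complex.arg z = θ := by
  have h : z = r * (((Real.cos θ : ℝ) : ℂ) + ((Real.sin θ : ℝ) : ℂ) * I) := by
    apply Complex.ext
    · rw [hre]
      simp only [Complex.mul_re, Complex.add_re, Complex.ofReal_re, Complex.ofReal_im,
        Complex.mul_im, Complex.add_im, Complex.I_re, Complex.I_im]
      ring
    · rw [him]
      simp only [Complex.mul_re, Complex.add_re, Complex.ofReal_re, Complex.ofReal_im,
        Complex.mul_im, Complex.add_im, Complex.I_re, Complex.I_im]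
      ring
  rw [h, Complex.ofReal_cos, Complex.ofReal_sin, Complex.arg_mul_cos_add_sin_mul_I hr ⟨h1, h2⟩]

theorem arg_w : Complex.arg ((1 + s3 * I) / 2) = Real.pi / 3 := by
  have hpi := Real.pi_pos
  apply arg_polar 1 _ one_pos (by linarith) (by linarith)
  · rw [Real.cos_pi_div_three]; simp [s3]
  · rw [Real.sin_pi_div_three]; simp [s3]

theorem arg_v0 : Complex.arg (1 - s3 * I) = -(Real.pi / 3) := by
  have hpi := Real.pi_pos
  apply arg_polar 2 _ two_pos (by linarith) (by linarith)
  · rw [Real.cos_neg, Real.cos_pi_div_three]; simp [s3]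
  · rw [Real.sin_neg, Real.sin_pi_div_three]; simp [s3]; ring

theorem arg_v1 : Complex.arg (-(s3 * I) / 3) = -(Real.pi / 2) := by
  have hpi := Real.pi_pos
  apply arg_polar (Real.sqrt 3 / 3) _ (by positivity) (by linarith) (by linarith)
  · rw [Real.cos_neg, Real.cos_pi_div_two]; simp [s3]
  · rw [Real.sin_neg, Real.sin_pi_div_two]; simp [s3]; ring

theorem arg_v2 : Complex.arg ((3 - s3 * I) / 4) = -(Real.pi / 6) := by
  have hpi := Real.pi_pos
  have h3 : Real.sqrt 3 * Real.sqrt 3 = 3 := Real.mul_self_sqrt (by norm_num)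
  apply arg_polar (Real.sqrt 3 / 2) _ (by positivity) (by linarith) (by linarith)
  · rw [Real.cos_neg, Real.cos_pi_div_six]; simp [s3]; linarith
  · rw [Real.sin_neg, Real.sin_pi_div_six]; simp [s3]; ring

theorem arg_u0 : Complex.arg ((1 - s3 * I) / 4) = -(Real.pi / 3) := by
  have hpi := Real.pi_pos
  apply arg_polar (1 / 2) _ (by positivity) (by linarith) (by linarith)
  · rw [Real.cos_neg, Real.cos_pi_div_three]; simp [s3]; norm_num
  · rw [Real.sin_neg, Real.sin_pi_div_three]; simp [s3]; ring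

theorem arg_u1 : Complex.arg ((3 - s3 * I) / 3) = -(Real.pi / 6) := by
  have hpi := Real.pi_pos
  have h3 : Real.sqrt 3 * Real.sqrt 3 = 3 := Real.mul_self_sqrt (by norm_num)
  apply arg_polar (2 * Real.sqrt 3 / 3) _ (by positivity) (by linarith) (by linarith)
  · rw [Real.cos_neg, Real.cos_pi_div_six]; simp [s3]; linarith
  · rw [Real.sin_neg, Real.sin_pi_div_six]; simp [s3]; ring

theorem arg_u2 : Complex.arg (-(s3 * I)) = -(Real.pi / 2) := by
  have hpi := Real.pi_pos
  apply arg_polar (Real.sqrt 3) _ (by positivity) (by linarith) (by linarith)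
  · rw [Real.cos_neg, Real.cos_pi_div_two]; simp [s3]
  · rw [Real.sin_neg, Real.sin_pi_div_two]; simp [s3]

/-- the sum over the four parities -/
theorem vol_sum : ∑ k : Fin 3, (lob (arg (shape false false k)) + lob (arg (shape true true k)) +
    lob (arg (shape false true k)) + lob (arg (shape true false k))) =
    2 * (2 * lob (Real.pi / 3) - lob (Real.pi / 2) - lob (Real.pi / 6)) := by
  rw [Fin.sum_univ_three]
  simp only [shape, Matrix.cons_val_zero, Matrix.cons_val_one, Matrix.cons_val, arg_w, arg_v0,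
    arg_v1, arg_v2, arg_u0, arg_u1, arg_u2, lob_neg]
  ring

end Pool.Agent.H297R3.Luo
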