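import Mathlib
import Pool.Agent.H297R3.Luo.Shape

set_option autoImplicit false

namespace Pool.Agent.H297R3.Luo

open Complex
open Equiv (swap)

/-- parity -/
def par {K : ℕ} (i : Fin (2 * K + 2)) : Bool := Nat.bodd (i : ℕ)

theorem par_succ {K : ℕ} (i : Fin (2 * K + 2)) : par (i + 1) = !par i := by
  have h : ((i + 1 : Fin (2 * K + 1 + 1)) : ℕ) = if i = Fin.last (2 * K + 1) then 0 else (i : ℕ) + 1 :=
    Fin.val_add_one i
  unfold par
  rw [h]
  split_ifs with hl
  · rw [hl]
    simp [Fin.val_last, Nat.bodd_succ, Nat.bodd_mul]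
  · rw [Nat.bodd_succ]

theorem par_pred {K : ℕ} (i : Fin (2 * K + 2)) : par (i - 1) = !par i := by
  have h := par_succ (i - 1)
  rw [sub_add_cancel] at h
  rw [h, Bool.not_not]

theorem prod_par {K : ℕ} (g : Bool → ℂ) :
    ∏ i : Fin (2 * K + 2), g (par i) = (g false * g true) ^ (K + 1) := by
  unfold par
  rw [Fin.prod_univ_eq_prod_range (fun i => g (Nat.bodd i)) (2 * K + 2)]
  induction K with
  | zero =>
    simp [Finset.prod_range_succ]
  | succ K ih =>
    rw [show 2 * (K + 1) + 2 = (2 * K + 2) + 1 + 1 by ring, Finset.prod_range_succ,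
      Finset.prod_range_succ, ih, pow_succ (g false * g true) (K + 1)]
    simp [Nat.bodd_succ, Nat.bodd_mul]
    ring

theorem sum_par {K : ℕ} (g : Bool → ℝ) :
    ∑ i : Fin (2 * K + 2), g (par i) = (K + 1) * (g false + g true) := by
  unfold par
  rw [Fin.sum_univ_eq_sum_range (fun i => g (Nat.bodd i)) (2 * K + 2)]
  induction K with
  | zero =>
    simp [Finset.sum_range_succ]
  | succ K ih =>
    rw [show 2 * (K + 1) + 2 = (2 * K + 2) + 1 + 1 by ring, Finset.sum_range_succ,
      Finset.sum_range_succ, ih]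
    simp [Nat.bodd_succ, Nat.bodd_mul]
    ring

/-- the six edges of a tetrahedron -/
def E6 : Fin 6 → {e : Sym2 (Fin 4) // ¬ e.IsDiag} :=
  ![⟨s(0, 1), by decide⟩, ⟨s(2, 3), by decide⟩, ⟨s(0, 2), by decide⟩, ⟨s(1, 3), by decide⟩,
    ⟨s(0, 3), by decide⟩, ⟨s(1, 2), by decide⟩]

theorem E6_bij : Function.Bijective E6 := by
  constructor
  · decide
  · decide

/-- the quadrilateral disjoint from an edge -/
def quad6 : Fin 6 → Fin 3 := ![0, 0, 1, 1, 2, 2]

theorem mem_opp (c : Fin 6) (k : Fin 3) :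
    (E6 c).1 ∈ Triangulation.oppEdges k ↔ k = quad6 c := by
  have h : ∀ k : Fin 3, ∀ e : Sym2 (Fin 4), e ∈ Triangulation.oppEdges k ↔
      (e = (![s(0, 1), s(0, 2), s(0, 3)] : Fin 3 → Sym2 (Fin 4)) k ∨
        e = (![s(2, 3), s(1, 3), s(1, 2)] : Fin 3 → Sym2 (Fin 4)) k) := by
    intro k e
    fin_cases k <;> rfl
  rw [h]
  revert c k
  decide

/-- transport of edges -/
def tr : Fin 4 → Fin 6 → Fin 6 :=
  ![![0, 1, 0, 4, 0, 2], ![0, 1, 5, 0, 3, 0], ![0, 0, 0, 5, 2, 0], ![0, 0, 4, 0, 0, 3]]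

theorem tr_spec : ∀ (f : Fin 4) (c : Fin 6), f ∉ (E6 c).1 →
    (E6 c).1.map ((![swap 0 1, swap 0 1, swap 2 3, swap 2 3] : Fin 4 → Equiv.Perm (Fin 4)) f) =
      (E6 (tr f c)).1 := by
  decide

variable {m n : ℕ}

/-- labels of the edges -/
abbrev Lab (m n : ℕ) : Type := Fin (2 * m + 2) ⊕ Fin (2 * n + 2) ⊕ (Fin (2 * m + 2) × Fin (2 * n + 2))

/-- the label of an edge -/
def lab (t : Fin (2 * m + 2) × Fin (2 * n + 2)) : Fin 6 → Lab m n :=
  ![Sum.inl t.1, Sum.inr (Sum.inl t.2), Sum.inr (Sum.inr (t.1, t.2)),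
    Sum.inr (Sum.inr (t.1 + 1, t.2 + 1)), Sum.inr (Sum.inr (t.1, t.2 + 1)),
    Sum.inr (Sum.inr (t.1 + 1, t.2))]

theorem lab_adj (t : Fin (2 * m + 2) × Fin (2 * n + 2)) (f : Fin 4) (c : Fin 6)
    (h : f ∉ (E6 c).1) : lab ((joinTri m n).adj t f) (tr f c) = lab t c := by
  revert h
  fin_cases f <;> fin_cases c <;> first
    | (intro h; exact absurd (by decide) h)
    | (intro _; simp [lab, joinTri, tr])

/-- the index of an edge -/
noncomputable def idx (d : {e : Sym2 (Fin 4) // ¬ e.IsDiag}) : Fin 6 :=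
  (Equiv.ofBijective E6 E6_bij).symm d

theorem E6_idx (d : {e : Sym2 (Fin 4) // ¬ e.IsDiag}) : E6 (idx d) = d :=
  (Equiv.ofBijective E6 E6_bij).apply_symm_apply d

theorem idx_E6 (c : Fin 6) : idx (E6 c) = c :=
  (Equiv.ofBijective E6 E6_bij).symm_apply_apply c

/-- the label of an edge of the triangulation -/
noncomputable def eLab : (joinTri m n).Edge → Lab m n :=
  Quot.lift (fun p : (joinTri m n).PreEdge => lab (m := m) (n := n) p.1 (idx p.2)) (by
    rintro ⟨t, d⟩ ⟨t', d'⟩ ⟨f, hf, h1, h2⟩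
    simp only at hf h1 h2 ⊢
    have h3 : f ∉ (E6 (idx d)).1 := by rw [E6_idx]; exact hf
    have h4 := tr_spec f (idx d) h3
    rw [E6_idx] at h4
    have h5 : d' = E6 (tr f (idx d)) := Subtype.ext (h2.trans h4)
    rw [h5, idx_E6, h1]
    exact (lab_adj t f (idx d) h3).symm)

/-- an edge -/
def mkE (t : Fin (2 * m + 2) × Fin (2 * n + 2)) (c : Fin 6) : (joinTri m n).Edge :=
  Quot.mk _ ((t, E6 c) : (joinTri m n).PreEdge)

theorem eLab_mkE (t : Fin (2 * m + 2) × Fin (2 * n + 2)) (c : Fin 6) :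
    eLab (mkE t c) = lab t c := by
  show lab (m := m) (n := n) t (idx (E6 c)) = lab t c
  rw [idx_E6]

theorem mkE_glue (t : Fin (2 * m + 2) × Fin (2 * n + 2)) (f : Fin 4) (c : Fin 6)
    (h : f ∉ (E6 c).1) : mkE t c = mkE ((joinTri m n).adj t f) (tr f c) := by
  apply Quot.sound
  exact ⟨f, h, rfl, (tr_spec f c h).symm⟩

theorem mkE_0 (i : Fin (2 * m + 2)) (j : Fin (2 * n + 2)) :
    mkE (i, j) 0 = mkE (m := m) (n := n) (i, 0) 0 := by
  have h : ∀ j : Fin (2 * n + 1 + 1), mkE (m := m) (n := n) (i, j) 0 = mkE (i, 0) 0 := by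
    intro j
    induction j using Fin.induction with
    | zero => rfl
    | succ j ih =>
      rw [← Fin.coeSucc_eq_succ]
      exact (mkE_glue (m := m) (n := n) (i, j.castSucc) 2 0 (by decide)).symm.trans ih
  exact h j

theorem mkE_1 (i : Fin (2 * m + 2)) (j : Fin (2 * n + 2)) :
    mkE (i, j) 1 = mkE (m := m) (n := n) (0, j) 1 := by
  have h : ∀ i : Fin (2 * m + 1 + 1), mkE (m := m) (n := n) (i, j) 1 = mkE (0, j) 1 := by
    intro i
    induction i using Fin.induction with
    | zero => rfl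
    | succ i ih =>
      rw [← Fin.coeSucc_eq_succ]
      exact (mkE_glue (m := m) (n := n) (i.castSucc, j) 0 1 (by decide)).symm.trans ih
  exact h i

/-- canonical representatives -/
def can : Lab m n → (joinTri m n).Edge
  | Sum.inl i => mkE (i, 0) 0
  | Sum.inr (Sum.inl j) => mkE (0, j) 1
  | Sum.inr (Sum.inr t) => mkE t 2

theorem mkE_can (t : Fin (2 * m + 2) × Fin (2 * n + 2)) (c : Fin 6) :
    mkE t c = can (lab t c) := by
  obtain ⟨i, j⟩ := t
  fin_cases c
  · exact mkE_0 i j
  · exact mkE_1 i j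
  · rfl
  · exact (mkE_glue (m := m) (n := n) (i, j) 0 3 (by decide)).trans
      (mkE_glue (m := m) (n := n) (i + 1, j) 2 4 (by decide))
  · exact mkE_glue (m := m) (n := n) (i, j) 2 4 (by decide)
  · exact mkE_glue (m := m) (n := n) (i, j) 0 5 (by decide)

theorem mkE_eq_iff (t : Fin (2 * m + 2) × Fin (2 * n + 2)) (c : Fin 6) (e : (joinTri m n).Edge) :
    mkE t c = e ↔ lab t c = eLab e := by
  constructor
  · rintro rfl
    rw [eLab_mkE]
  · intro h
    rw [mkE_can, h]
    obtain ⟨⟨t', d⟩, rfl⟩ := Quot.exists_rep e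
    have h2 : (Quot.mk _ ((t', d) : (joinTri m n).PreEdge) : (joinTri m n).Edge) =
        mkE t' (idx d) := by
      unfold mkE
      rw [E6_idx]
    rw [h2]
    exact (congrArg can (eLab_mkE (m := m) (n := n) t' (idx d))).trans
      (mkE_can (m := m) (n := n) t' (idx d)).symm

/-- the product at an edge -/
theorem prod_edge (z : (joinTri m n).Quad → ℂ) (e : (joinTri m n).Edge) :
    ∏ q : (joinTri m n).Quad, z q ^ (joinTri m n).inc e q =
      ∏ t : Fin (2 * m + 2) × Fin (2 * n + 2), ∏ c : Fin 6,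
        if lab t c = eLab e then z (t, quad6 c) else 1 := by
  classical
  have h1 : ∏ q : (joinTri m n).Quad, z q ^ (joinTri m n).inc e q =
      ∏ t : Fin (2 * m + 2) × Fin (2 * n + 2), ∏ k : Fin 3, z (t, k) ^ (joinTri m n).inc e (t, k) :=
    Fintype.prod_prod_type _
  rw [h1]
  apply Finset.prod_congr rfl
  intro t _
  have h2 : ∀ k : Fin 3, z (t, k) ^ (joinTri m n).inc e (t, k) =
      ∏ c : Fin 6, if k = quad6 c ∧ lab t c = eLab e then z (t, k) else 1 := by
    intro k
    unfold Triangulation.inc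
    rw [← Finset.prod_const, Finset.prod_filter]
    rw [← (Equiv.ofBijective E6 E6_bij).prod_comp]
    apply Finset.prod_congr rfl
    intro c _
    have h3 : ((Equiv.ofBijective E6 E6_bij c).1 ∈ Triangulation.oppEdges k ∧
        (Quot.mk (joinTri m n).EdgeGlued ((t, Equiv.ofBijective E6 E6_bij c) :
          (joinTri m n).PreEdge)) = e) ↔ (k = quad6 c ∧ lab t c = eLab e) := by
      rw [← mkE_eq_iff]
      exact and_congr (mem_opp c k) Iff.rfl
    by_cases h4 : k = quad6 c ∧ lab t c = eLab e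
    · rw [if_pos h4, if_pos (h3.mpr h4)]
    · rw [if_neg h4, if_neg (fun h5 => h4 (h3.mp h5))]
  simp only [h2]
  rw [Finset.prod_comm]
  apply Finset.prod_congr rfl
  intro c _
  rw [Finset.prod_eq_single (quad6 c)]
  · simp
  · intro k _ hk
    rw [if_neg]
    rintro ⟨h5, _⟩
    exact hk h5
  · intro h; exact absurd (Finset.mem_univ _) h

/-- the shape parameters -/
noncomputable def zz (m n : ℕ) : (joinTri m n).Quad → ℂ :=
  fun q => shape (par q.1.1) (par q.1.2) q.2

theorem pow_pos_real {c : ℂ} (h : ∃ r : ℝ, 0 < r ∧ c = (r : ℂ)) (k : ℕ) :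
    ∃ r : ℝ, 0 < r ∧ c ^ k = (r : ℂ) := by
  obtain ⟨r, h1, rfl⟩ := h
  exact ⟨r ^ k, by positivity, by push_cast; rfl⟩

theorem zz_mem (m n : ℕ) : zz m n ∈ (joinTri m n).W := by
  refine ⟨fun q => shape_ne _ _ _, fun t k => shape_succ _ _ _, ?_⟩
  intro e
  rw [prod_edge]
  generalize eLab e = L
  rcases L with i0 | j0 | ⟨a, b⟩
  · have h : ∏ t : Fin (2 * m + 2) × Fin (2 * n + 2), (∏ c : Fin 6,
        if lab t c = Sum.inl i0 then zz m n (t, quad6 c) else 1) =
        (shape (par i0) false 0 * shape (par i0) true 0) ^ (n + 1) := by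
      rw [← prod_par (fun b => shape (par i0) b 0), Fintype.prod_prod_type,
        Finset.prod_eq_single i0]
      · apply Finset.prod_congr rfl
        intro j _
        rw [Fin.prod_univ_six]
        simp [lab, zz, quad6]
      · intro i _ hi
        apply Finset.prod_eq_one
        intro j _
        rw [Fin.prod_univ_six]
        simp [lab, hi]
      · intro h; exact absurd (Finset.mem_univ _) h
    rw [h]
    exact pow_pos_real (prod_A _) _
  · have h : ∏ t : Fin (2 * m + 2) × Fin (2 * n + 2), (∏ c : Fin 6,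
        if lab t c = Sum.inr (Sum.inl j0) then zz m n (t, quad6 c) else 1) =
        (shape false (par j0) 0 * shape true (par j0) 0) ^ (m + 1) := by
      rw [← prod_par (fun b => shape b (par j0) 0), Fintype.prod_prod_type_right,
        Finset.prod_eq_single j0]
      · apply Finset.prod_congr rfl
        intro i _
        rw [Fin.prod_univ_six]
        simp [lab, zz, quad6]
      · intro j _ hj
        apply Finset.prod_eq_one
        intro i _
        rw [Fin.prod_univ_six]
        simp [lab, hj]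
      · intro h; exact absurd (Finset.mem_univ _) h
    rw [h]
    exact pow_pos_real (prod_B _) _
  · have h : ∏ t : Fin (2 * m + 2) × Fin (2 * n + 2), (∏ c : Fin 6,
        if lab t c = Sum.inr (Sum.inr (a, b)) then zz m n (t, quad6 c) else 1) =
        shape (par a) (par b) 1 * shape (!par a) (!par b) 1 * shape (par a) (!par b) 2 *
          shape (!par a) (par b) 2 := by
      have h1 : ∀ t : Fin (2 * m + 2) × Fin (2 * n + 2), (∏ c : Fin 6,
          if lab t c = Sum.inr (Sum.inr (a, b)) then zz m n (t, quad6 c) else 1) =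
          (if t = (a, b) then shape (par t.1) (par t.2) 1 else 1) *
          (if t = (a - 1, b - 1) then shape (par t.1) (par t.2) 1 else 1) *
          (if t = (a, b - 1) then shape (par t.1) (par t.2) 2 else 1) *
          (if t = (a - 1, b) then shape (par t.1) (par t.2) 2 else 1) := by
        rintro ⟨i, j⟩
        rw [Fin.prod_univ_six]
        have e1 : (i + 1 = a) = (i = a - 1) := propext eq_sub_iff_add_eq.symm
        have e2 : (j + 1 = b) = (j = b - 1) := propext eq_sub_iff_add_eq.symm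
        simp only [lab, quad6, Matrix.cons_val_zero, Matrix.cons_val_one, Matrix.cons_val,
          reduceCtorEq, if_false, Sum.inr.injEq, Prod.mk.injEq, one_mul, zz, e1, e2]
      simp only [h1, Finset.prod_mul_distrib, Finset.prod_ite_eq', Finset.mem_univ, if_true,
        par_pred]
    rw [h]
    exact prod_C _ _

theorem vol_zz (m n : ℕ) : (joinTri m n).vol (zz m n) = (m + 1) * (n + 1) *
    (2 * (2 * lob (Real.pi / 3) - lob (Real.pi / 2) - lob (Real.pi / 6))) := by
  unfold Triangulation.vol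
  have h1 : ∑ q : (joinTri m n).Quad, lob (Complex.arg (zz m n q)) =
      ∑ t : Fin (2 * m + 2) × Fin (2 * n + 2), ∑ k : Fin 3,
        lob (Complex.arg (shape (par t.1) (par t.2) k)) :=
    Fintype.sum_prod_type _
  rw [h1, Fintype.sum_prod_type]
  have h2 : ∀ i : Fin (2 * m + 2), ∑ j : Fin (2 * n + 2), ∑ k : Fin 3,
      lob (Complex.arg (shape (par i) (par j) k)) =
      (fun b : Bool => ((n : ℝ) + 1) * ((∑ k : Fin 3, lob (Complex.arg (shape b false k))) +
        ∑ k : Fin 3, lob (Complex.arg (shape b true k)))) (par i) := by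
    intro i
    exact sum_par (fun b => ∑ k : Fin 3, lob (Complex.arg (shape (par i) b k)))
  simp only [h2]
  rw [sum_par (fun b : Bool => ((n : ℝ) + 1) * ((∑ k : Fin 3, lob (Complex.arg (shape b false k))) +
        ∑ k : Fin 3, lob (Complex.arg (shape b true k))))]
  rw [← vol_sum]
  simp only [Finset.sum_add_distrib]
  ring

end Pool.Agent.H297R3.Luo
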